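import Pool.Agent.H730R2.GN.Base

set_option autoImplicit false

namespace Pool.Agent.H730R2.GN

open Pool.Agent.Helper133.BT Pool.Agent.Helper133.BU
open scoped BoundedContinuousFunction

variable (o : OpData) (x : ℕ → Y)

theorem C_ext {a b : BB} (h : ∀ y, a y = b y) : a = b := ContinuousMap.ext h

theorem del_mul (n : ℕ) (f g : C(Y, ℂ)) : del o x n (f * g) = del o x n f * del o x n g := by
  refine C_ext fun y => ?_
  have h : sq x n (f * g) y = sq x n f y * sq x n g y := by
    refine BoundedContinuousFunction.ext fun q => ?_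
    simp
  rw [ContinuousMap.mul_apply, del_apply, del_apply, del_apply, h, map_mul]

theorem del_star (n : ℕ) (f : C(Y, ℂ)) : del o x n (star f) = star (del o x n f) := by
  refine C_ext fun y => ?_
  have h : sq x n (star f) y = star (sq x n f y) := by
    refine BoundedContinuousFunction.ext fun q => ?_
    simp
  rw [ContinuousMap.star_apply, del_apply, del_apply, h, map_star]

theorem del_one (n : ℕ) : del o x n 1 = 1 := by
  refine C_ext fun y => ?_
  have h : sq x n (1 : C(Y, ℂ)) y = 1 := by
    refine BoundedContinuousFunction.ext fun q => ?_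
    simp
  rw [del_apply, h, map_one, ContinuousMap.one_apply]

theorem del_add (n : ℕ) (f g : C(Y, ℂ)) : del o x n (f + g) = del o x n f + del o x n g := by
  refine C_ext fun y => ?_
  have h : sq x n (f + g) y = sq x n f y + sq x n g y := by
    refine BoundedContinuousFunction.ext fun q => ?_
    simp
  rw [ContinuousMap.add_apply, del_apply, del_apply, del_apply, h, map_add]

theorem del_smul (n : ℕ) (c : ℂ) (f : C(Y, ℂ)) : del o x n (c • f) = c • del o x n f := by
  refine C_ext fun y => ?_
  have h : sq x n (c • f) y = c • sq x n f y := by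
    refine BoundedContinuousFunction.ext fun q => ?_
    simp
  rw [ContinuousMap.smul_apply, del_apply, del_apply, h, map_smul]

theorem norm_del (n : ℕ) (f : C(Y, ℂ)) : ‖del o x n f‖ ≤ ‖f‖ := by
  rw [ContinuousMap.norm_le _ (norm_nonneg _)]
  intro y
  rw [del_apply]
  refine (Dg_norm o _).trans ?_
  rw [BoundedContinuousFunction.norm_le (norm_nonneg _)]
  intro q
  rw [sq_apply]
  exact f.norm_coe_le_norm _

theorem del_const (n : ℕ) (c : ℂ) : del o x n (ContinuousMap.const Y c) = c • 1 := by
  refine C_ext fun y => ?_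
  have h : sq x n (ContinuousMap.const Y c) y = c • (1 : ℕ →ᵇ ℂ) := by
    refine BoundedContinuousFunction.ext fun q => ?_
    simp
  rw [del_apply, h, map_smul, map_one, ContinuousMap.smul_apply, ContinuousMap.one_apply]

theorem C_pre0 (n : ℕ) (f : C(Y, ℂ)) (y : Y) :
    pre (fun q => 2 * q) (sq x n f y) = sq x (n + 1) f y := by
  refine BoundedContinuousFunction.ext fun q => ?_
  rw [pre_apply, sq_apply, sq_apply]
  congr 1
  unfold pt
  by_cases h : q = 0
  · simp [h]
  · have h2 : 2 * q ≠ 0 := by omega
    rw [if_neg h2, if_neg h, padicValNat.mul (by norm_num) h, padicValNat_self]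
    congr 1
    ring

theorem C_pre1 (n : ℕ) (f : C(Y, ℂ)) (y : Y) :
    pre (fun q => 2 * q + 1) (sq x n f y) = f (x n) • (1 : ℕ →ᵇ ℂ) := by
  refine BoundedContinuousFunction.ext fun q => ?_
  rw [pre_apply, sq_apply]
  have h0 : padicValNat 2 (2 * q + 1) = 0 := by
    apply padicValNat.eq_zero_of_not_dvd
    omega
  have : pt x n (2 * q + 1) y = x n := by
    unfold pt
    rw [if_neg (by omega), h0, add_zero]
  rw [this]
  simp

theorem del_s0 (n : ℕ) (f : C(Y, ℂ)) :
    del o x n f * cst o.s0 = cst o.s0 * del o x (n + 1) f := by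
  refine C_ext fun y => ?_
  rw [ContinuousMap.mul_apply, ContinuousMap.mul_apply, del_apply, del_apply]
  show o.Dg (sq x n f y) * o.s0 = o.s0 * o.Dg (sq x (n + 1) f y)
  rw [o.D0, C_pre0]

theorem del_s1 (n : ℕ) (f : C(Y, ℂ)) : del o x n f * cst o.s1 = f (x n) • cst o.s1 := by
  refine C_ext fun y => ?_
  rw [ContinuousMap.mul_apply, ContinuousMap.smul_apply, del_apply]
  show o.Dg (sq x n f y) * o.s1 = f (x n) • o.s1
  rw [o.D1, C_pre1, map_smul, map_one, mul_smul_comm, mul_one]

end Pool.Agent.H730R2.GN
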