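import Pool.Agent.H730R2.GN.Base

set_option autoImplicit false

namespace Pool.Agent.H730R2.GN

open Pool.Agent.Helper133.BT Pool.Agent.Helper133.BU
open scoped BoundedContinuousFunction

variable (o : OpData) (x : ℕ → Y)

lemma ExH_sq_pos (k : ℕ) (y : Y) : 0 < ∑ b, (y.1 k b) ^ 2 := by
  have h0 : 0 ≤ ∑ b, (y.1 k b) ^ 2 := Finset.sum_nonneg fun _ _ => sq_nonneg _
  rcases h0.lt_or_eq with h | h
  · exact h
  · exfalso
    have h1 := (Finset.sum_eq_zero_iff_of_nonneg (fun b _ => sq_nonneg (y.1 k b))).mp h.symm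
    have h2 : ∑ b, |y.1 k b| = 1 := y.2 k
    have h3 : ∑ b, |y.1 k b| = 0 := by
      refine Finset.sum_eq_zero fun b hb => ?_
      have := h1 b hb
      have h4 : y.1 k b = 0 := by simpa using this
      rw [h4, abs_zero]
    rw [h3] at h2
    exact zero_ne_one h2

lemma ExH_cont (k : ℕ) (b : Fin (dm k + 1)) : Continuous fun y : Y => y.1 k b :=
  (continuous_apply b).comp ((continuous_apply k).comp continuous_subtype_val)

/-- the coordinate functions -/
noncomputable def hk (k : ℕ) (a : Fin (dm k + 1)) : C(Y, ℂ) :=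
  ⟨fun y => ((y.1 k a / Real.sqrt (∑ b, (y.1 k b) ^ 2) : ℝ) : ℂ), by
    refine Complex.continuous_ofReal.comp ?_
    refine Continuous.div (ExH_cont k a) ?_ ?_
    · exact Real.continuous_sqrt.comp
        (continuous_finsetSum _ fun b _ => (ExH_cont k b).pow 2)
    · intro y
      exact (Real.sqrt_pos.mpr (ExH_sq_pos k y)).ne'⟩

lemma hk_apply (k : ℕ) (a : Fin (dm k + 1)) (y : Y) :
    hk k a y = ((y.1 k a / Real.sqrt (∑ b, (y.1 k b) ^ 2) : ℝ) : ℂ) := rfl

lemma fl_self (k : ℕ) (y : Y) (b : Fin (dm k + 1)) : (fl k y).1 k b = - y.1 k b := by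
  simp [fl, flp]

lemma fl_ne {k l : ℕ} (h : l ≠ k) (y : Y) (b : Fin (dm l + 1)) : (fl k y).1 l b = y.1 l b := by
  simp [fl, flp, h]

lemma hk_star (k : ℕ) (a : Fin (dm k + 1)) (y : Y) : star (hk k a y) = hk k a y := by
  rw [hk_apply]
  exact Complex.conj_ofReal _

lemma hk_fl (l : ℕ) (a : Fin (dm l + 1)) (k : ℕ) (y : Y) :
    hk l a (fl k y) = (if k = l then (-1 : ℂ) else 1) * hk l a y := by
  rw [hk_apply, hk_apply]
  by_cases h : k = l
  · subst h
    simp only [fl_self, if_true, neg_sq, neg_div]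
    push_cast
    ring
  · have h' : l ≠ k := fun e => h e.symm
    simp only [fl_ne h', h, if_false, one_mul]

lemma hk_sum (k : ℕ) (y : Y) : ∑ a, hk k a y * hk k a y = 1 := by
  have hpos := ExH_sq_pos k y
  have h1 : ∀ a, hk k a y * hk k a y
      = (((y.1 k a) ^ 2 / (∑ b, (y.1 k b) ^ 2) : ℝ) : ℂ) := by
    intro a
    rw [hk_apply, ← Complex.ofReal_mul]
    congr 1
    rw [div_mul_div_comm, Real.mul_self_sqrt hpos.le]
    ring
  rw [Finset.sum_congr rfl fun a _ => h1 a, ← Complex.ofReal_sum, ← Finset.sum_div,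
    div_self hpos.ne']
  simp

theorem exists_h (A : Finset ℕ) : ∃ (N : ℕ) (h : Fin N → C(Y, ℂ)),
    (∀ a y, star (h a y) = h a y) ∧
    (∀ a k y, h a (fl k y) = (if k ∈ A then (-1 : ℂ) else 1) * h a y) ∧
    ∀ y, ∑ a, h a y * h a y = 1 := by
  classical
  induction A using Finset.induction_on with
  | empty =>
    refine ⟨1, fun _ => 1, ?_, ?_, ?_⟩
    · intro a y; simp
    · intro a k y; simp
    · intro y; simp
  | insert l A hl ih =>
    obtain ⟨N, h, h1, h2, h3⟩ := ih
    refine ⟨(dm l + 1) * N, fun q => hk l (finProdFinEquiv.symm q).1 * h (finProdFinEquiv.symm q).2,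
      ?_, ?_, ?_⟩
    · intro a y
      rw [ContinuousMap.mul_apply, star_mul', hk_star, h1]
    · intro a k y
      rw [ContinuousMap.mul_apply, ContinuousMap.mul_apply, hk_fl, h2]
      by_cases hkl : k = l
      · subst hkl
        simp only [if_true, hl, if_false, Finset.mem_insert, true_or]
        ring
      · simp only [hkl, if_false, Finset.mem_insert, false_or]
        ring
    · intro y
      have hs : ∑ a : Fin ((dm l + 1) * N), (hk l (finProdFinEquiv.symm a).1 *
          h (finProdFinEquiv.symm a).2) y * (hk l (finProdFinEquiv.symm a).1 *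
          h (finProdFinEquiv.symm a).2) y
          = ∑ p : Fin (dm l + 1) × Fin N, (hk l p.1 y * hk l p.1 y) * (h p.2 y * h p.2 y) := by
        refine Fintype.sum_equiv finProdFinEquiv.symm _ _ fun a => ?_
        rw [ContinuousMap.mul_apply]
        ring
      rw [hs, Fintype.sum_prod_type]
      simp only [← Finset.mul_sum, h3 y, mul_one]
      exact hk_sum l y

end Pool.Agent.H730R2.GN
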