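import Pool.Agent.H730R2.GN.Base

set_option autoImplicit false

namespace Pool.Agent.H730R2.GN

open Pool.Agent.Helper133.BT Pool.Agent.Helper133.BU
open scoped BoundedContinuousFunction

variable (o : OpData) (x : ℕ → Y)

theorem B_s10 : star o.s1 * o.s0 = 0 := by
  have h := congrArg star o.s01
  rwa [star_mul, star_star, star_zero] at h

theorem B_succ_lt {n i : ℕ} (h : i < 2 ^ n) : V o (n + 1) i = V o n i * o.s0 := by
  simp [V, h]

theorem B_succ_ge {n i : ℕ} (h : ¬ i < 2 ^ n) : V o (n + 1) i = V o n (i - 2 ^ n) * o.s1 := by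
  simp [V, h]

theorem V_orth (n i j : ℕ) (hi : i < 2 ^ n) (hj : j < 2 ^ n) :
    star (V o n i) * V o n j = if i = j then 1 else 0 := by
  induction n generalizing i j with
  | zero =>
    have h1 : i = 0 := by simpa using hi
    have h2 : j = 0 := by simpa using hj
    subst h1; subst h2
    simp [V]
  | succ n ih =>
    rw [pow_succ] at hi hj
    have key : ∀ (a b : BH) (i' j' : ℕ), i' < 2 ^ n → j' < 2 ^ n →
        star (V o n i' * a) * (V o n j' * b) = if i' = j' then star a * b else 0 := by
      intro a b i' j' hi' hj'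
      rw [star_mul]
      calc star a * star (V o n i') * (V o n j' * b) =
            star a * (star (V o n i') * V o n j') * b := by simp only [mul_assoc]
        _ = _ := by
          rw [ih i' j' hi' hj']
          split_ifs <;> simp
    by_cases h1 : i < 2 ^ n
    · by_cases h2 : j < 2 ^ n
      · rw [B_succ_lt o h1, B_succ_lt o h2, key _ _ _ _ h1 h2, o.s00]
      · rw [B_succ_lt o h1, B_succ_ge o h2, key _ _ _ _ h1 (by omega), o.s01,
          if_neg (by omega : ¬ i = j)]
        split_ifs <;> rfl
    · by_cases h2 : j < 2 ^ n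
      · rw [B_succ_ge o h1, B_succ_lt o h2, key _ _ _ _ (by omega) h2, B_s10,
          if_neg (by omega : ¬ i = j)]
        split_ifs <;> rfl
      · rw [B_succ_ge o h1, B_succ_ge o h2, key _ _ _ _ (by omega) (by omega), o.s11]
        by_cases h3 : i = j
        · rw [h3, if_pos rfl, if_pos rfl]
        · rw [if_neg h3, if_neg (by omega)]

theorem V_sum (n : ℕ) : ∑ i ∈ Finset.range (2 ^ n), V o n i * star (V o n i) = 1 := by
  induction n with
  | zero => simp [V]
  | succ n ih =>
    have h0 : 2 ^ (n + 1) = 2 ^ n + 2 ^ n := by ring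
    rw [h0, Finset.sum_range_add, ← Finset.sum_add_distrib]
    rw [← ih]
    refine Finset.sum_congr rfl fun i hi => ?_
    rw [Finset.mem_range] at hi
    rw [B_succ_lt o hi, B_succ_ge o (by omega : ¬ 2 ^ n + i < 2 ^ n), Nat.add_sub_cancel_left,
      star_mul, star_mul]
    calc V o n i * o.s0 * (star o.s0 * star (V o n i)) +
          V o n i * o.s1 * (star o.s1 * star (V o n i)) =
          V o n i * (o.s0 * star o.s0 + o.s1 * star o.s1) * star (V o n i) := by
            simp only [mul_add, add_mul, mul_assoc]
      _ = _ := by rw [o.ssum, mul_one]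

theorem V_e (n i q : ℕ) (hi : i < 2 ^ n) : V o n i (e q) = e (q * 2 ^ n + i) := by
  induction n generalizing i q with
  | zero =>
    have h1 : i = 0 := by simpa using hi
    subst h1
    simp [V]
  | succ n ih =>
    rw [pow_succ] at hi
    by_cases h1 : i < 2 ^ n
    · rw [B_succ_lt o h1, ContinuousLinearMap.mul_apply, o.s0e, ih _ _ h1]
      congr 1
      ring
    · rw [B_succ_ge o h1, ContinuousLinearMap.mul_apply, o.s1e, ih _ _ (by omega)]
      congr 1
      have h2 : (2 * q + 1) * 2 ^ n = q * 2 ^ (n + 1) + 2 ^ n := by ring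
      omega

end Pool.Agent.H730R2.GN
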