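import Pool.Agent.H730R2.GN.Base
import Pool.Agent.H730R2.GN.VV

set_option autoImplicit false

namespace Pool.Agent.H730R2.GN

open Pool.Agent.Helper133.BT Pool.Agent.Helper133.BU
open scoped BoundedContinuousFunction

variable (o : OpData) (x : ℕ → Y)







theorem D3_star (n i j : ℕ) (hi : i < 2 ^ n) (hj : j < 2 ^ n) :
    (star (V o n j)) (e i) = if j = i then e 0 else 0 := by
  have h1 : V o n i (e 0) = e i := by
    rw [V_e o n i 0 hi, zero_mul, zero_add]
  have h2 : (star (V o n j)) (e i) = (star (V o n j) * V o n i) (e 0) := by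
    rw [← h1]
    rfl
  rw [h2, V_orth o n j i hj hi]
  split_ifs <;> rfl

theorem Ext_apply_e (n : ℕ) (F : ℕ → ℕ → C(Y, ℂ)) (y : Y) (i : ℕ) (hi : i < 2 ^ n) :
    Ext o x n F y (e i) = ∑ j ∈ Finset.range (2 ^ n), F j i y • e j := by
  have h0 : Ext o x n F y (e i) = ∑ a ∈ Finset.range (2 ^ n), ∑ b ∈ Finset.range (2 ^ n),
      V o n a (o.Dg (sq x n (F a b) y) ((star (V o n b)) (e i))) := by
    unfold Ext
    rw [ContinuousMap.sum_apply, ContinuousLinearMap.sum_apply]
    refine Finset.sum_congr rfl fun a _ => ?_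
    rw [ContinuousMap.sum_apply, ContinuousLinearMap.sum_apply]
    refine Finset.sum_congr rfl fun b _ => ?_
    rfl
  rw [h0]
  refine Finset.sum_congr rfl fun a ha => ?_
  rw [Finset.sum_eq_single i]
  · rw [D3_star o n i i hi hi, if_pos rfl, o.De, sq_apply, map_smul]
    have h1 : pt x n 0 y = y := by simp [pt]
    rw [h1, V_e o n a 0 (Finset.mem_range.1 ha), zero_mul, zero_add]
  · intro b hb hbi
    rw [D3_star o n i b hi (Finset.mem_range.1 hb), if_neg hbi, map_zero, map_zero]
  · intro h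
    exact absurd (Finset.mem_range.2 hi) h

end Pool.Agent.H730R2.GN
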