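import Pool.Agent.H730R2.GN.Base
import Pool.Agent.H730R2.GN.Del
import Pool.Agent.H730R2.GN.ExH
import Pool.Agent.H730R2.GN.ExtE
import Pool.Agent.H730R2.GN.VV

set_option autoImplicit false

namespace Pool.Agent.H730R2.GN

open Pool.Agent.Helper133.BT Pool.Agent.Helper133.BU
open scoped BoundedContinuousFunction

variable (o : OpData) (x : ℕ → Y)


















section abs
variable {A : Type*} [Ring A] [StarRing A] [Algebra ℂ A]

theorem G3_abs1 (T D W : A) (c : ℂ) (hT : star T * T = c • 1) :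
    star (T * D * star W) * (T * D * star W) = c • (W * (star D * D) * star W) := by
  rw [star_mul, star_mul, star_star]
  have h2 : W * (star D * star T) * (T * D * star W) = W * (star D * (star T * T) * D) * star W := by
    noncomm_ring
  rw [h2, hT, mul_smul_comm, mul_one, smul_mul_assoc, mul_smul_comm, smul_mul_assoc]

theorem G3_absF {A : Type*} [Ring A] (E T D W T' : A) (h : E * T = T') :
    E * (T * D * W) = T' * D * W := by
  rw [← mul_assoc, ← mul_assoc, h]

theorem G3_abs2 {A : Type*} [Ring A] [StarRing A] (C E : A) : star C * (star E * E) * C = star (E * C) * (E * C) := by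
  rw [star_mul]
  noncomm_ring

theorem G3_absA (v : ℕ → A) (D : ℕ → ℕ → A) (s T : A) (b : ℕ → ℕ → ℂ) (ξ : ℕ → ℂ) (n : ℕ)
    (hT : ∀ j ∈ Finset.range n, star (v j) * T = ξ j • s) (hD : ∀ i j, D i j * s = b i j • s) :
    (∑ i ∈ Finset.range n, ∑ j ∈ Finset.range n, v i * D i j * star (v j)) * T =
      ∑ i ∈ Finset.range n, (∑ j ∈ Finset.range n, b i j * ξ j) • (v i * s) := by
  rw [Finset.sum_mul]
  refine Finset.sum_congr rfl fun i _ => ?_
  rw [Finset.sum_mul, Finset.sum_smul]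
  refine Finset.sum_congr rfl fun j hj => ?_
  rw [mul_assoc, hT j hj, mul_smul_comm, mul_assoc, hD, mul_smul_comm, smul_smul, mul_comm (ξ j)]

theorem G3_absB (v : ℕ → A) (T : A) (c : ℂ) (n : ℕ) (N : ℕ → ℕ) (h : ∀ j, Fin (N j) → A)
    (hT : star T * T = c • 1) (h1 : ∀ j, ∑ a, star (h j a) * h j a = 1)
    (hv : ∑ j ∈ Finset.range n, v j * star (v j) = 1) :
    ∑ j ∈ Finset.range n, ∑ a, star (T * h j a * star (v j)) * (T * h j a * star (v j)) =
      c • 1 := by
  rw [← hv, Finset.smul_sum]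
  refine Finset.sum_congr rfl fun j _ => ?_
  rw [Finset.sum_congr rfl (fun a _ => G3_abs1 T (h j a) (v j) c hT), ← Finset.smul_sum,
    ← Finset.sum_mul, ← Finset.mul_sum, h1, mul_one]

theorem G3_absC (v : ℕ → A) (D T : A) (ξ : ℕ → ℂ) (n j : ℕ) (hj : j < n + n) (F : ℕ → ℕ → A)
    (hF1 : ∀ i, n ≤ i → F i j = ξ (i - n) • D) (hF0 : ∀ i j', ¬ (n ≤ i ∧ j' = j) → F i j' = 0)
    (hT : T = ∑ i ∈ Finset.range n, ξ i • v (n + i)) :
    T * D * star (v j) =
      ∑ i ∈ Finset.range (n + n), ∑ j' ∈ Finset.range (n + n), v i * F i j' * star (v j') := by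
  rw [Finset.sum_range_add]
  have h2 : ∑ i ∈ Finset.range n, ∑ j' ∈ Finset.range (n + n), v i * F i j' * star (v j') = 0 := by
    refine Finset.sum_eq_zero fun i hi => Finset.sum_eq_zero fun j' _ => ?_
    have := Finset.mem_range.mp hi
    rw [hF0 i j' (fun h => by omega), mul_zero, zero_mul]
  rw [h2, zero_add, hT, Finset.sum_mul, Finset.sum_mul]
  refine Finset.sum_congr rfl fun i _ => ?_
  rw [Finset.sum_eq_single j]
  · rw [hF1 (n + i) (Nat.le_add_right _ _), Nat.add_sub_cancel_left, mul_smul_comm, smul_mul_assoc]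
  · intro j' _ hne
    rw [hF0 (n + i) j' (fun h => hne h.2), mul_zero, zero_mul]
  · intro hn
    exact absurd (Finset.mem_range.mpr hj) hn

theorem G3_absD (v : ℕ → A) (w : A) (ξ : ℕ → ℂ) (n : ℕ)
    (hv : ∀ i < n, ∀ j < n, star (v i) * v j = if i = j then 1 else 0) (hw : star w * w = 1)
    (a : ℂ) [StarModule ℂ A] (ha : ∑ i ∈ Finset.range n, star (ξ i) * ξ i = a) :
    star (∑ i ∈ Finset.range n, ξ i • (v i * w)) * (∑ i ∈ Finset.range n, ξ i • (v i * w)) =
      a • 1 := by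
  rw [star_sum, Finset.sum_mul, ← ha, Finset.sum_smul]
  refine Finset.sum_congr rfl fun i hi => ?_
  rw [Finset.mul_sum]
  have hi' := Finset.mem_range.mp hi
  have h1 : ∀ j ∈ Finset.range n, star (ξ i • (v i * w)) * (ξ j • (v j * w)) =
      if i = j then (star (ξ i) * ξ i) • (1 : A) else 0 := by
    intro j hj
    have hj' := Finset.mem_range.mp hj
    rw [star_smul, star_mul, smul_mul_smul_comm]
    have h2 : star w * star (v i) * (v j * w) = star w * (star (v i) * v j) * w := by noncomm_ring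
    rw [h2, hv i hi' j hj']
    by_cases hij : i = j
    · subst hij
      rw [if_pos rfl, if_pos rfl, mul_one, hw]
    · rw [if_neg hij, if_neg hij, mul_zero, zero_mul, smul_zero]
  rw [Finset.sum_congr rfl h1, Finset.sum_ite_eq, if_pos hi]

theorem G3_absE (v : ℕ → A) (w : A) (ξ : ℕ → ℂ) (n : ℕ)
    (hv : ∀ i < n, ∀ j < n, star (v i) * v j = if i = j then 1 else 0) (j : ℕ)
    (hj : j ∈ Finset.range n) :
    star (v j) * (∑ i ∈ Finset.range n, ξ i • (v i * w)) = ξ j • w := by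
  rw [Finset.mul_sum]
  have h2 : ∀ l ∈ Finset.range n, star (v j) * (ξ l • (v l * w)) =
      if j = l then ξ j • w else 0 := by
    intro l hl
    rw [mul_smul_comm, ← mul_assoc, hv j (Finset.mem_range.mp hj) l (Finset.mem_range.mp hl)]
    by_cases hjl : j = l
    · subst hjl
      rw [if_pos rfl, if_pos rfl, one_mul]
    · rw [if_neg hjl, if_neg hjl, zero_mul, smul_zero]
  rw [Finset.sum_congr rfl h2, Finset.sum_ite_eq, if_pos hj]

end abs

theorem G3_cst_mul (S T : BH) : cst (S * T) = cst S * cst T := rfl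

theorem G3_cst_star (T : BH) : cst (star T) = star (cst T) := rfl

theorem G3_cst_smul (c : ℂ) (T : BH) : cst (c • T) = c • cst T := rfl

theorem G3_cst_one : cst (1 : BH) = 1 := rfl

theorem G3_cst_zero : cst (0 : BH) = 0 := rfl

theorem G3_cst_add (S T : BH) : cst (S + T) = cst S + cst T := rfl

theorem G3_cst_sum (s : Finset ℕ) (f : ℕ → BH) : cst (∑ i ∈ s, f i) = ∑ i ∈ s, cst (f i) := by
  classical
  induction s using Finset.induction_on with
  | empty => rw [Finset.sum_empty, Finset.sum_empty]; exact G3_cst_zero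
  | insert a s ha ih => rw [Finset.sum_insert ha, Finset.sum_insert ha, G3_cst_add, ih]

theorem G3_zsm (a : BB) : (0 : ℂ) • a = 0 := by
  ext y
  show ((0 : ℂ) • a y : BH) _ _ = _
  rw [zero_smul]
  rfl

theorem G3_del_zero (n : ℕ) : del o x n 0 = 0 := by
  have h := del_smul o x n 0 0
  rw [zero_smul] at h
  rw [h]
  exact G3_zsm _

theorem G3_del_sum (n : ℕ) {N : ℕ} (f : Fin N → C(Y, ℂ)) :
    del o x n (∑ a, f a) = ∑ a, del o x n (f a) := by
  classical
  have h : ∀ s : Finset (Fin N), del o x n (∑ a ∈ s, f a) = ∑ a ∈ s, del o x n (f a) := by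
    intro s
    induction s using Finset.induction_on with
    | empty => rw [Finset.sum_empty, Finset.sum_empty]; exact G3_del_zero o x n
    | insert a s ha ih => rw [Finset.sum_insert ha, Finset.sum_insert ha, del_add, ih]
  exact h Finset.univ

/-- the constant operator -/
noncomputable def G3_Th (m : ℕ) (ξ : ℕ → ℂ) : BH :=
  ∑ i ∈ Finset.range (2 ^ m), ξ i • (V o m i * o.s1)

theorem G3_Th_norm (m : ℕ) (ξ : ℕ → ℂ) : star (G3_Th o m ξ) * G3_Th o m ξ =
    ((∑ i ∈ Finset.range (2 ^ m), ‖ξ i‖ ^ 2 : ℝ) : ℂ) • 1 := by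
  refine G3_absD (A := BH) (V o m) o.s1 ξ (2 ^ m) (fun i hi j hj => V_orth o m i j hi hj) o.s11 _ ?_
  rw [Complex.ofReal_sum]
  refine Finset.sum_congr rfl fun i _ => ?_
  rw [Complex.star_def, ← Complex.normSq_eq_conj_mul_self, Complex.normSq_eq_norm_sq]

/-- the vector -/
noncomputable def G3_eta (m : ℕ) (ξ : ℕ → ℂ) (B : ℕ → ℕ → C(Y, ℂ)) (i : ℕ) : ℂ :=
  ∑ j ∈ Finset.range (2 ^ m), B i j (x m) * ξ j

theorem G3_Ext_Th (m : ℕ) (ξ : ℕ → ℂ) (B : ℕ → ℕ → C(Y, ℂ)) :
    Ext o x m B * cst (G3_Th o m ξ) = cst (G3_Th o m (G3_eta x m ξ B)) := by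
  have hR : cst (G3_Th o m (G3_eta x m ξ B)) =
      ∑ i ∈ Finset.range (2 ^ m), (G3_eta x m ξ B i) • (cst (V o m i) * cst o.s1) := by
    unfold G3_Th
    rw [G3_cst_sum]
    rfl
  rw [hR]
  refine G3_absA (A := BB) (fun i => cst (V o m i)) (fun i j => del o x m (B i j)) (cst o.s1)
    (cst (G3_Th o m ξ)) (fun i j => B i j (x m)) ξ (2 ^ m) ?_ (fun i j => del_s1 o x m (B i j))
  intro j hj
  exact congrArg cst (G3_absE (A := BH) (V o m) o.s1 ξ (2 ^ m)
    (fun i hi j hj => V_orth o m i j hi hj) j hj)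

theorem G3_norm_sum (s : Finset ℕ) (η : ℕ → ℂ) :
    ‖(∑ i ∈ s, η i • e i : H)‖ ^ 2 = ∑ i ∈ s, ‖η i‖ ^ 2 := by
  have h1 : (∑ i ∈ s, η i • e i : H) = ∑ i ∈ s, lp.single 2 i (η i) := by
    refine Finset.sum_congr rfl fun i _ => ?_
    unfold e
    rw [← lp.single_smul, smul_eq_mul, mul_one]
  have h2 := lp.norm_sum_single (E := fun _ : ℕ => ℂ) (p := 2) (by norm_num) η s
  rw [h1]
  have h3 : (2 : ENNReal).toReal = ((2 : ℕ) : ℝ) := by norm_num
  rw [h3, Real.rpow_natCast] at h2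
  rw [h2]
  refine Finset.sum_congr rfl fun i _ => ?_
  rw [Real.rpow_natCast]

theorem G3_Ext_norm (m : ℕ) (ξ : ℕ → ℂ) (B : ℕ → ℕ → C(Y, ℂ)) :
    ‖Ext o x m B (x m) (∑ i ∈ Finset.range (2 ^ m), ξ i • e i)‖ ^ 2 =
      ∑ i ∈ Finset.range (2 ^ m), ‖G3_eta x m ξ B i‖ ^ 2 := by
  rw [← G3_norm_sum]
  congr 2
  rw [map_sum]
  have h1 : ∀ i ∈ Finset.range (2 ^ m), Ext o x m B (x m) (ξ i • e i) =
      ∑ j ∈ Finset.range (2 ^ m), (B j i (x m) * ξ i) • e j := by
    intro i hi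
    rw [map_smul, Ext_apply_e o x m B (x m) i (Finset.mem_range.mp hi), Finset.smul_sum]
    refine Finset.sum_congr rfl fun j _ => ?_
    rw [smul_smul, mul_comm]
  rw [Finset.sum_congr rfl h1, Finset.sum_comm]
  refine Finset.sum_congr rfl fun j _ => ?_
  unfold G3_eta
  rw [Finset.sum_smul]

/-- the averaging element -/
noncomputable def G3_C (m : ℕ) (T : BH) (j : ℕ) (h : C(Y, ℂ)) : BB :=
  cst T * del o x (m + 1) h * star (cst (V o (m + 1) j))

theorem G3_C_sum (m : ℕ) (T : BH) (c : ℂ) (hT : star T * T = c • 1) (N : ℕ → ℕ)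
    (h : ∀ j, Fin (N j) → C(Y, ℂ)) (hs : ∀ j a y, star (h j a y) = h j a y)
    (h1 : ∀ j y, ∑ a, h j a y * h j a y = 1) :
    ∑ j ∈ Finset.range (2 ^ (m + 1)), ∑ a, star (G3_C o x m T j (h j a)) * G3_C o x m T j (h j a) =
      c • 1 := by
  have hone : ∀ j, ∑ a, star (h j a) * h j a = 1 := by
    intro j
    ext y
    have hst : ∀ a, star (h j a) = h j a := by
      intro a
      ext y
      exact hs j a y
    simp only [hst]
    rw [ContinuousMap.sum_apply]
    simpa using h1 j y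
  refine G3_absB (A := BB) (fun j => cst (V o (m+1) j)) (cst T) c (2 ^ (m+1)) N
    (fun j a => del o x (m+1) (h j a)) (congrArg cst hT) ?_ ?_
  · intro j
    have h2 : ∀ a ∈ (Finset.univ : Finset (Fin (N j))), star (del o x (m+1) (h j a)) *
        del o x (m+1) (h j a) = del o x (m+1) (star (h j a) * h j a) := by
      intro a _
      rw [del_mul, del_star]
    have h3 : ∑ a, star (del o x (m+1) (h j a)) * del o x (m+1) (h j a) = 1 := by
      rw [Finset.sum_congr rfl h2, ← G3_del_sum, hone, del_one]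
    exact h3
  · have h4 := congrArg cst (V_sum o (m+1))
    rw [G3_cst_sum] at h4
    exact h4

theorem G3_chi_sq (k i : ℕ) : chi k i = -1 ∨ chi k i = 1 := by
  unfold chi
  split_ifs
  · left; rfl
  · right; rfl

theorem G3_chi_big (k i : ℕ) (h : i < 2 ^ k) : chi k i = 1 := by
  unfold chi
  rw [if_neg]
  rintro ⟨h1, _⟩
  omega

theorem G3_chi_block (m k i : ℕ) (h1 : 2 ^ m ≤ i) (h2 : i < 2 ^ (m + 1)) :
    chi k i = chi k (2 ^ m) := by
  unfold chi
  rcases lt_trichotomy k m with hk | hk | hk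
  · have h3 : 2 ^ (k + 1) ≤ 2 ^ m := Nat.pow_le_pow_right (by norm_num) hk
    rw [if_neg (by omega), if_neg (by omega)]
  · subst hk
    rw [if_pos ⟨h1, h2⟩, if_pos ⟨le_refl _, Nat.pow_lt_pow_right (by norm_num) (Nat.lt_succ_self _)⟩]
  · have h3 : 2 ^ (m + 1) ≤ 2 ^ k := Nat.pow_le_pow_right (by norm_num) hk
    have h4 : 2 ^ m < 2 ^ (m + 1) := Nat.pow_lt_pow_right (by norm_num) (Nat.lt_succ_self _)
    rw [if_neg (by omega), if_neg (by omega)]

theorem G3_C_St (m : ℕ) (ξ : ℕ → ℂ) (j : ℕ) (hj : j < 2 ^ (m + 1)) (h : C(Y, ℂ))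
    (hh : ∀ k y, h (fl k y) = chi k (2 ^ m) * chi k j * h y) :
    G3_C o x m (G3_Th o m ξ) j h ∈ St o x (m + 1) := by
  refine ⟨fun i' j' => if 2 ^ m ≤ i' ∧ j' = j then ξ (i' - 2 ^ m) • h else 0, ?_, ?_⟩
  · intro i' hi' j' hj' k y
    show (if 2 ^ m ≤ i' ∧ j' = j then ξ (i' - 2 ^ m) • h else 0) (fl k y) =
      chi k i' * chi k j' * (if 2 ^ m ≤ i' ∧ j' = j then ξ (i' - 2 ^ m) • h else 0) y
    by_cases hc : 2 ^ m ≤ i' ∧ j' = j
    · rw [if_pos hc, hc.2, G3_chi_block m k i' hc.1 hi', ContinuousMap.smul_apply,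
        ContinuousMap.smul_apply, hh, smul_eq_mul, smul_eq_mul]
      ring
    · rw [if_neg hc, ContinuousMap.zero_apply, ContinuousMap.zero_apply, mul_zero]
  · have hd : 2 ^ (m + 1) = 2 ^ m + 2 ^ m := by rw [pow_succ]; ring
    have hV : ∀ i, V o (m+1) (2 ^ m + i) = V o m i * o.s1 := by
      intro i
      show (if 2 ^ m + i < 2 ^ m then V o m (2 ^ m + i) * o.s0
        else V o m (2 ^ m + i - 2 ^ m) * o.s1) = _
      rw [if_neg (by omega), Nat.add_sub_cancel_left]
    have hmain := G3_absC (A := BB) (fun i => cst (V o (m+1) i)) (del o x (m+1) h)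
      (cst (G3_Th o m ξ)) ξ (2 ^ m) j (by rw [← hd]; exact hj)
      (fun i' j' => del o x (m+1) (if 2 ^ m ≤ i' ∧ j' = j then ξ (i' - 2 ^ m) • h else 0))
      (by
        intro i hi
        show del o x (m+1) (if 2 ^ m ≤ i ∧ j = j then ξ (i - 2 ^ m) • h else 0) = _
        rw [if_pos ⟨hi, rfl⟩]
        exact del_smul o x (m+1) _ h)
      (by
        intro i j' hc
        show del o x (m+1) (if 2 ^ m ≤ i ∧ j' = j then ξ (i - 2 ^ m) • h else 0) = _
        rw [if_neg hc]
        exact G3_del_zero o x (m+1))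
      (by
        have h5 : G3_Th o m ξ = ∑ i ∈ Finset.range (2 ^ m), ξ i • V o (m+1) (2 ^ m + i) := by
          unfold G3_Th
          refine Finset.sum_congr rfl fun i _ => ?_
          rw [hV]
        have h6 := congrArg cst h5
        rw [G3_cst_sum] at h6
        exact h6)
    unfold G3_C Ext
    rw [hd]
    exact hmain

theorem average (m : ℕ) (ξ : ℕ → ℂ) (B : ℕ → ℕ → C(Y, ℂ)) :
    ∃ (N : ℕ) (C : Fin N → BB), (∀ a, C a ∈ St o x (m + 1)) ∧
      ∑ a, star (C a) * C a = ((∑ i ∈ Finset.range (2 ^ m), ‖ξ i‖ ^ 2 : ℝ) : ℂ) • 1 ∧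
      ∑ a, star (C a) * (star (Ext o x m B) * Ext o x m B) * C a =
        ((‖Ext o x m B (x m) (∑ i ∈ Finset.range (2 ^ m), ξ i • e i)‖ ^ 2 : ℝ) : ℂ) • 1 := by
  classical
  have hex : ∀ j : ℕ, ∃ (N : ℕ) (h : Fin N → C(Y, ℂ)),
      (∀ a y, star (h a y) = h a y) ∧
      (∀ a k y, h a (fl k y) = (if k ∈ (Finset.range (m+1)).filter
        (fun k => chi k (2 ^ m) * chi k j = -1) then (-1 : ℂ) else 1) * h a y) ∧
      ∀ y, ∑ a, h a y * h a y = 1 := fun j => exists_h _
  choose N h hs hf h1 using hex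
  have hf' : ∀ j, j < 2 ^ (m + 1) → ∀ a k y,
      h j a (fl k y) = chi k (2 ^ m) * chi k j * h j a y := by
    intro j hj a k y
    rw [hf j a k y]
    congr 1
    by_cases hk : k < m + 1
    · by_cases hc : chi k (2 ^ m) * chi k j = -1
      · rw [if_pos (Finset.mem_filter.mpr ⟨Finset.mem_range.mpr hk, hc⟩), hc]
      · have hnm : ¬ k ∈ (Finset.range (m+1)).filter
            (fun k => chi k (2 ^ m) * chi k j = -1) := fun h => hc (Finset.mem_filter.mp h).2
        rw [if_neg hnm]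
        rcases G3_chi_sq k (2 ^ m) with h2 | h2
        · rcases G3_chi_sq k j with h3 | h3
          · rw [h2, h3]; norm_num
          · exact absurd (by rw [h2, h3]; norm_num) hc
        · rcases G3_chi_sq k j with h3 | h3
          · exact absurd (by rw [h2, h3]; norm_num) hc
          · rw [h2, h3]; norm_num
    · rw [if_neg (fun h => hk (Finset.mem_range.mp (Finset.mem_filter.mp h).1))]
      have h4 : 2 ^ (m + 1) ≤ 2 ^ k := Nat.pow_le_pow_right (by norm_num) (by omega)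
      have h5 : 2 ^ m < 2 ^ (m + 1) := Nat.pow_lt_pow_right (by norm_num) (Nat.lt_succ_self _)
      rw [G3_chi_big k (2 ^ m) (by omega), G3_chi_big k j (by omega), mul_one]
  let ι : Type := Σ j : Fin (2 ^ (m + 1)), Fin (N j)
  let E : ι ≃ Fin (Fintype.card ι) := Fintype.equivFin ι
  have hsum : ∀ (g : ∀ j, Fin (N j) → BB),
      ∑ a : Fin (Fintype.card ι), g ((E.symm a).1 : ℕ) (E.symm a).2 =
        ∑ j ∈ Finset.range (2 ^ (m + 1)), ∑ a, g j a := by
    intro g
    rw [Equiv.sum_comp E.symm (fun p : ι => g (p.1 : ℕ) p.2), Finset.sum_range]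
    exact Fintype.sum_sigma (fun p : ι => g (p.1 : ℕ) p.2)
  refine ⟨Fintype.card ι, fun a => G3_C o x m (G3_Th o m ξ) ((E.symm a).1 : ℕ)
    (h ((E.symm a).1 : ℕ) (E.symm a).2), ?_, ?_, ?_⟩
  · intro a
    exact G3_C_St o x m ξ _ (E.symm a).1.2 _ (fun k y => hf' _ (E.symm a).1.2 _ k y)
  · rw [hsum (fun j a => star (G3_C o x m (G3_Th o m ξ) j (h j a)) *
      G3_C o x m (G3_Th o m ξ) j (h j a))]
    exact G3_C_sum o x m _ _ (G3_Th_norm o m ξ) N h hs h1
  · rw [hsum (fun j a => star (G3_C o x m (G3_Th o m ξ) j (h j a)) *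
      (star (Ext o x m B) * Ext o x m B) * G3_C o x m (G3_Th o m ξ) j (h j a))]
    have hE : ∀ j f, Ext o x m B * G3_C o x m (G3_Th o m ξ) j f =
        G3_C o x m (G3_Th o m (G3_eta x m ξ B)) j f := by
      intro j f
      exact G3_absF (A := BB) _ _ _ _ _ (G3_Ext_Th o x m ξ B)
    have h2 : ∀ j (a : Fin (N j)), star (G3_C o x m (G3_Th o m ξ) j (h j a)) *
        (star (Ext o x m B) * Ext o x m B) * G3_C o x m (G3_Th o m ξ) j (h j a) =
        star (G3_C o x m (G3_Th o m (G3_eta x m ξ B)) j (h j a)) *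
          G3_C o x m (G3_Th o m (G3_eta x m ξ B)) j (h j a) := by
      intro j a
      rw [← hE]
      exact G3_abs2 (A := BB) _ _
    rw [Finset.sum_congr rfl (fun j _ => Finset.sum_congr rfl (fun a _ => h2 j a)), G3_Ext_norm]
    exact G3_C_sum o x m _ _ (G3_Th_norm o m _) N h hs h1

end Pool.Agent.H730R2.GN
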