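import Mathlib
import Pool.Agent.Helper133.BUProd

/-!
MP_704412_an: a unital simple separable C*-algebra which is not finitely generated.
Definitions.
-/

namespace Pool.Agent.H730R2.GN

open Pool.Agent.Helper133.BT Pool.Agent.Helper133.BU
open scoped BoundedContinuousFunction

/-- dimension of the `i`-th sphere -/
def dm (i : ℕ) : ℕ := 8 ^ (i + 1)

/-- the infinite product of spheres (surfaces of cross polytopes) -/
abbrev Y : Type := PP dm

instance : CompactSpace Y := isCompact_iff_compactSpace.mp (PP_compact dm)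

/-- the antipodal map in the coordinate `k` -/
noncomputable def fl (k : ℕ) (y : Y) : Y := ⟨flp dm k y.1, flp_mem dm k y.2⟩

/-- the character of the basis vector `i`: it changes sign under `fl k` iff `2^k ≤ i < 2^(k+1)` -/
noncomputable def chi (k i : ℕ) : ℂ := if 2 ^ k ≤ i ∧ i < 2 ^ (k + 1) then -1 else 1

/-- the Hilbert space -/
abbrev H : Type := lp (fun _ : ℕ => ℂ) 2

/-- bounded operators -/
abbrev BH : Type := H →L[ℂ] H

/-- the basis vectors -/
noncomputable def e (q : ℕ) : H := lp.single 2 q (1 : ℂ)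

/-- the ambient C*-algebra -/
abbrev BB : Type := C(Y, BH)

/-- precomposition of a bounded sequence -/
noncomputable def pre (s : ℕ → ℕ) (c : ℕ →ᵇ ℂ) : ℕ →ᵇ ℂ :=
  c.compContinuous ⟨s, continuous_of_discreteTopology⟩

@[simp] lemma pre_apply (s : ℕ → ℕ) (c : ℕ →ᵇ ℂ) (q : ℕ) : pre s c q = c (s q) := rfl

/-- two isometries and the diagonal operators -/
structure OpData where
  s0 : BH
  s1 : BH
  Dg : (ℕ →ᵇ ℂ) →⋆ₐ[ℂ] BH
  s00 : star s0 * s0 = 1
  s11 : star s1 * s1 = 1
  s01 : star s0 * s1 = 0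
  ssum : s0 * star s0 + s1 * star s1 = 1
  s0e : ∀ q, s0 (e q) = e (2 * q)
  s1e : ∀ q, s1 (e q) = e (2 * q + 1)
  De : ∀ c q, Dg c (e q) = c q • e q
  D0 : ∀ c, Dg c * s0 = s0 * Dg (pre (fun q => 2 * q) c)
  D1 : ∀ c, Dg c * s1 = s1 * Dg (pre (fun q => 2 * q + 1) c)

variable (o : OpData) (x : ℕ → Y)

/-- the isometries `V n i`, `i < 2^n` -/
noncomputable def V : ℕ → ℕ → BH
  | 0, _ => 1
  | n + 1, i => if i < 2 ^ n then V n i * o.s0 else V n (i - 2 ^ n) * o.s1

/-- the point at which the block `q` of stage `n` is evaluated -/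
noncomputable def pt (n q : ℕ) (y : Y) : Y := if q = 0 then y else x (n + padicValNat 2 q)

lemma continuous_pt (n q : ℕ) : Continuous (pt x n q) := by
  unfold pt
  by_cases h : q = 0
  · simp only [h, if_true]; exact continuous_id
  · simp only [h, if_false]; exact continuous_const

/-- the bounded sequence of values -/
noncomputable def sq (n : ℕ) (f : C(Y, ℂ)) (y : Y) : ℕ →ᵇ ℂ :=
  BoundedContinuousFunction.ofNormedAddCommGroup (fun q => f (pt x n q y))
    continuous_of_discreteTopology ‖f‖ (fun _ => f.norm_coe_le_norm _)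

@[simp] lemma sq_apply (n : ℕ) (f : C(Y, ℂ)) (y : Y) (q : ℕ) :
    sq x n f y q = f (pt x n q y) := rfl

lemma dist_sq (n : ℕ) (f : C(Y, ℂ)) (y y' : Y) : dist (sq x n f y) (sq x n f y') ≤ dist (f y) (f y') := by
  rw [BoundedContinuousFunction.dist_le dist_nonneg]
  intro q
  rw [sq_apply, sq_apply]
  unfold pt
  by_cases h : q = 0
  · simp [h]
  · simp [h]

lemma continuous_sq (n : ℕ) (f : C(Y, ℂ)) : Continuous (sq x n f) := by
  rw [Metric.continuous_iff']
  intro a ε hε
  have h := Metric.continuous_iff'.mp f.continuous a ε hε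
  filter_upwards [h] with y hy
  exact lt_of_le_of_lt (dist_sq x n f y a) hy

lemma Dg_norm (c : ℕ →ᵇ ℂ) : ‖o.Dg c‖ ≤ ‖c‖ := NonUnitalStarAlgHom.norm_apply_le o.Dg c

lemma continuous_Dg : Continuous o.Dg := by
  have h : LipschitzWith 1 o.Dg := by
    refine LipschitzWith.of_dist_le_mul fun a b => ?_
    rw [dist_eq_norm, dist_eq_norm, ← map_sub]
    simpa using Dg_norm o (a - b)
  exact h.continuous

/-- the diagonal elements -/
noncomputable def del (n : ℕ) (f : C(Y, ℂ)) : BB :=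
  ⟨fun y => o.Dg (sq x n f y), (continuous_Dg o).comp (continuous_sq x n f)⟩

lemma del_apply (n : ℕ) (f : C(Y, ℂ)) (y : Y) : del o x n f y = o.Dg (sq x n f y) := rfl

/-- constant functions -/
noncomputable def cst (T : BH) : BB := ContinuousMap.const Y T

/-- the stage `n` element with matrix `F` -/
noncomputable def Ext (n : ℕ) (F : ℕ → ℕ → C(Y, ℂ)) : BB :=
  ∑ i ∈ Finset.range (2 ^ n), ∑ j ∈ Finset.range (2 ^ n),
    cst (V o n i) * del o x n (F i j) * star (cst (V o n j))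

/-- equivariant matrices -/
def Equi (n : ℕ) (F : ℕ → ℕ → C(Y, ℂ)) : Prop :=
  ∀ i < 2 ^ n, ∀ j < 2 ^ n, ∀ k y, F i j (fl k y) = chi k i * chi k j * F i j y

/-- the matrix product -/
noncomputable def mm (n : ℕ) (F G : ℕ → ℕ → C(Y, ℂ)) : ℕ → ℕ → C(Y, ℂ) :=
  fun i j => ∑ k ∈ Finset.range (2 ^ n), F i k * G k j

/-- the connecting map on matrices -/
noncomputable def phi (n : ℕ) (F : ℕ → ℕ → C(Y, ℂ)) : ℕ → ℕ → C(Y, ℂ) := fun i j =>
  if i < 2 ^ n ∧ j < 2 ^ n then F i j
  else if 2 ^ n ≤ i ∧ 2 ^ n ≤ j then ContinuousMap.const Y (F (i - 2 ^ n) (j - 2 ^ n) (x n))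
  else 0

/-- stage `n` -/
def St (n : ℕ) : Set BB := {a | ∃ F, Equi n F ∧ a = Ext o x n F}

/-- the union of the stages -/
def Un : Set BB := {a | ∃ n, a ∈ St o x n}

/-- every tail of `x` is dense -/
def Dn : Prop := ∀ U : Set Y, IsOpen U → U.Nonempty → ∀ n, ∃ m, n ≤ m ∧ x m ∈ U

end Pool.Agent.H730R2.GN
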