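import Pool.Agent.H730R2.GN.Base

set_option autoImplicit false

namespace Pool.Agent.H730R2.GN

open Pool.Agent.Helper133.BT Pool.Agent.Helper133.BU
open scoped BoundedContinuousFunction

variable (o : OpData) (x : ℕ → Y)

theorem D4_chi_sq (k i : ℕ) : chi k i * chi k i = 1 := by
  unfold chi
  split_ifs <;> norm_num

theorem D4_chi (n k i j : ℕ) (hi : 2 ^ n ≤ i) (hi' : i < 2 ^ (n + 1)) (hj : 2 ^ n ≤ j)
    (hj' : j < 2 ^ (n + 1)) : chi k i * chi k j = 1 := by
  rcases lt_trichotomy k n with h | h | h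
  · have h1 : 2 ^ (k + 1) ≤ 2 ^ n := Nat.pow_le_pow_right (by norm_num) h
    unfold chi
    rw [if_neg (by omega), if_neg (by omega), one_mul]
  · subst h
    unfold chi
    rw [if_pos ⟨hi, hi'⟩, if_pos ⟨hj, hj'⟩]
    norm_num
  · have h1 : 2 ^ (n + 1) ≤ 2 ^ k := Nat.pow_le_pow_right (by norm_num) h
    unfold chi
    rw [if_neg (by omega), if_neg (by omega), one_mul]

theorem Equi_mm (n : ℕ) (F G : ℕ → ℕ → C(Y, ℂ)) (hF : Equi n F) (hG : Equi n G) :
    Equi n (mm n F G) := by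
  intro i hi j hj k y
  unfold mm
  rw [ContinuousMap.sum_apply, ContinuousMap.sum_apply, Finset.mul_sum]
  refine Finset.sum_congr rfl fun l hl => ?_
  rw [Finset.mem_range] at hl
  rw [ContinuousMap.mul_apply, ContinuousMap.mul_apply, hF i hi l hl, hG l hl j hj]
  calc chi k i * chi k l * F i l y * (chi k l * chi k j * G l j y) =
        chi k i * (chi k l * chi k l) * chi k j * (F i l y * G l j y) := by ring
    _ = _ := by rw [D4_chi_sq, mul_one]

theorem Equi_phi (n : ℕ) (F : ℕ → ℕ → C(Y, ℂ)) (hF : Equi n F) : Equi (n + 1) (phi x n F) := by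
  intro i hi j hj k y
  unfold phi
  by_cases h1 : i < 2 ^ n ∧ j < 2 ^ n
  · rw [if_pos h1]
    exact hF i h1.1 j h1.2 k y
  · rw [if_neg h1]
    by_cases h2 : 2 ^ n ≤ i ∧ 2 ^ n ≤ j
    · rw [if_pos h2, D4_chi n k i j h2.1 hi h2.2 hj, one_mul]
      rfl
    · rw [if_neg h2, ContinuousMap.zero_apply, ContinuousMap.zero_apply, mul_zero]

end Pool.Agent.H730R2.GN
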