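import Pool.Agent.H730R2.GN.Base

set_option autoImplicit false

namespace Pool.Agent.H730R2.GN

open Pool.Agent.Helper133.BT Pool.Agent.Helper133.BU
open scoped BoundedContinuousFunction

variable (o : OpData) (x : ℕ → Y)

lemma A3_summable (f : H) : Summable (fun k => ‖f k‖ ^ 2) := by
  have h := (lp.memℓp f).summable (by norm_num)
  simpa using h

lemma A3_bd (c : ℕ →ᵇ ℂ) (f : H) (k : ℕ) : ‖c k * f k‖ ^ 2 ≤ ‖c‖ ^ 2 * ‖f k‖ ^ 2 := by
  rw [norm_mul, mul_pow]
  gcongr
  exact c.norm_coe_le_norm k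

lemma A3_mem (c : ℕ →ᵇ ℂ) (f : H) : Memℓp (fun k => c k * f k) 2 := by
  apply memℓp_gen
  have h1 : Summable (fun k => ‖c k * f k‖ ^ 2) :=
    Summable.of_nonneg_of_le (fun k => by positivity) (A3_bd c f) ((A3_summable f).mul_left _)
  simpa using h1

/-- the multiplication operator (linear) -/
noncomputable def A3_lin (c : ℕ →ᵇ ℂ) : H →ₗ[ℂ] H where
  toFun f := ⟨fun k => c k * f k, A3_mem c f⟩
  map_add' f g := by
    apply lp.ext
    funext k
    change c k * (f k + g k) = c k * f k + c k * g k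
    ring
  map_smul' a f := by
    apply lp.ext
    funext k
    simp [mul_left_comm]

lemma A3_lin_apply (c : ℕ →ᵇ ℂ) (f : H) (k : ℕ) : (A3_lin c f) k = c k * f k := rfl

lemma A3_lin_norm (c : ℕ →ᵇ ℂ) (f : H) : ‖A3_lin c f‖ ≤ ‖c‖ * ‖f‖ := by
  apply lp.norm_le_of_tsum_le (by norm_num) (by positivity)
  have h1 : ∑' k, ‖(A3_lin c f) k‖ ^ 2 ≤ ∑' k, ‖c‖ ^ 2 * ‖f k‖ ^ 2 :=
    Summable.tsum_le_tsum (A3_bd c f)
      (Summable.of_nonneg_of_le (fun k => by positivity) (A3_bd c f) ((A3_summable f).mul_left _))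
      ((A3_summable f).mul_left _)
  have h2 : ∑' k, ‖f k‖ ^ 2 = ‖f‖ ^ 2 := by
    have := lp.norm_rpow_eq_tsum (p := 2) (by norm_num) f
    simpa using this.symm
  rw [tsum_mul_left, h2] at h1
  have h3 : (‖c‖ * ‖f‖) ^ 2 = ‖c‖ ^ 2 * ‖f‖ ^ 2 := by ring
  rw [← h3] at h1
  simpa using h1

/-- the multiplication operator -/
noncomputable def A3_D (c : ℕ →ᵇ ℂ) : BH := (A3_lin c).mkContinuous ‖c‖ (A3_lin_norm c)

lemma A3_D_apply (c : ℕ →ᵇ ℂ) (f : H) (k : ℕ) : (A3_D c f) k = c k * f k := rfl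

theorem exists_D : ∃ Dg : (ℕ →ᵇ ℂ) →⋆ₐ[ℂ] BH, ∀ c q, Dg c (e q) = c q • e q := by
  refine ⟨{ toFun := A3_D
            map_one' := ?_
            map_mul' := ?_
            map_zero' := ?_
            map_add' := ?_
            commutes' := ?_
            map_star' := ?_ }, ?_⟩
  · ext1 f
    apply lp.ext
    funext k
    rw [A3_D_apply]
    simp
  · intro c d
    ext1 f
    apply lp.ext
    funext k
    have hm : (A3_D c * A3_D d) f = A3_D c (A3_D d f) := rfl
    rw [hm, A3_D_apply, A3_D_apply, A3_D_apply]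
    simp [mul_assoc]
  · ext1 f
    apply lp.ext
    funext k
    simp only [A3_D_apply]
    simp
  · intro c d
    ext1 f
    apply lp.ext
    funext k
    change (c k + d k) * f k = c k * f k + d k * f k
    ring
  · intro r
    ext1 f
    apply lp.ext
    funext k
    simp only [A3_D_apply]
    simp [Algebra.algebraMap_eq_smul_one]
  · intro c
    rw [ContinuousLinearMap.star_eq_adjoint, ContinuousLinearMap.eq_adjoint_iff]
    intro f g
    rw [lp.inner_eq_tsum, lp.inner_eq_tsum]
    congr 1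
    funext k
    simp only [A3_D_apply]
    simp [mul_comm, mul_left_comm]
  · intro c q
    apply lp.ext
    funext k
    change c k * (e q : H) k = c q * (e q : H) k
    unfold e
    by_cases h : k = q
    · subst h
      simp
    · rw [lp.single_apply_ne _ _ _ h]
      simp

end Pool.Agent.H730R2.GN
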