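import Pool.Agent.H730R2.GN.Base

set_option autoImplicit false

namespace Pool.Agent.H730R2.GN

open Pool.Agent.Helper133.BT Pool.Agent.Helper133.BU
open scoped BoundedContinuousFunction

variable (o : OpData) (x : ℕ → Y)

lemma A2_inner_e (v : H) (q : ℕ) : inner ℂ (e q) v = v q := by
  unfold e
  rw [lp.inner_single_left]
  simp

lemma A2_e_apply (p q : ℕ) : (e q : H) p = if p = q then 1 else 0 := by
  unfold e
  by_cases h : p = q
  · subst h
    simp
  · rw [if_neg h]
    rw [lp.single_apply_ne _ _ _ h]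

lemma A2_inner_ee (p q : ℕ) : inner ℂ (e p) (e q) = if p = q then (1:ℂ) else 0 := by
  rw [A2_inner_e, A2_e_apply]

lemma A2_ext {v w : H} (h : ∀ q, inner ℂ (e q) v = inner ℂ (e q) w) : v = w := by
  apply lp.ext
  funext q
  have := h q
  rwa [A2_inner_e, A2_inner_e] at this

lemma A2_hasSum (v : H) : HasSum (fun q => v q • e q) v := by
  have h := lp.hasSum_single (p := 2) (by norm_num) v
  convert h using 2 with q
  unfold e
  rw [← lp.single_smul]
  simp

lemma A2_op_ext (S T : BH) (h : ∀ q, S (e q) = T (e q)) : S = T := by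
  ext1 v
  have h1 := (A2_hasSum v).mapL S
  have h2 := (A2_hasSum v).mapL T
  simp only [map_smul, h] at h1 h2
  exact h1.unique h2

lemma A2_norm_e (q : ℕ) : ‖(e q : H)‖ = 1 := by
  unfold e
  rw [lp.norm_single (by norm_num)]
  simp

lemma A2_orth (s : ℕ → ℕ) (hs : Function.Injective s) : Orthonormal ℂ (fun q => (e (s q) : H)) := by
  refine ⟨fun q => A2_norm_e _, fun p q hpq => ?_⟩
  simp only
  rw [A2_inner_ee, if_neg (fun h => hpq (hs h))]

/-- the isometry of an injective map -/
noncomputable def A2_iso (s : ℕ → ℕ) (hs : Function.Injective s) : BH :=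
  ((A2_orth s hs).orthogonalFamily.linearIsometry).toContinuousLinearMap

lemma A2_iso_e (s : ℕ → ℕ) (hs : Function.Injective s) (q : ℕ) : A2_iso s hs (e q) = e (s q) := by
  unfold A2_iso
  have h := (A2_orth s hs).orthogonalFamily.linearIsometry_apply_single (i := q) (1:ℂ)
  simp only [LinearIsometry.coe_toContinuousLinearMap]
  unfold e at h ⊢
  rw [h]
  simp [LinearIsometry.toSpanSingleton_apply]

lemma A2_iso_star (s : ℕ → ℕ) (hs : Function.Injective s) : star (A2_iso s hs) * A2_iso s hs = 1 := by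
  have h : ∀ v, ‖A2_iso s hs v‖ = ‖v‖ := fun v =>
    ((A2_orth s hs).orthogonalFamily.linearIsometry).norm_map v
  exact (ContinuousLinearMap.norm_map_iff_adjoint_comp_self (A2_iso s hs)).mp h

theorem exists_s : ∃ s0 s1 : BH, star s0 * s0 = 1 ∧ star s1 * s1 = 1 ∧ star s0 * s1 = 0 ∧
    s0 * star s0 + s1 * star s1 = 1 ∧ (∀ q, s0 (e q) = e (2 * q)) ∧ ∀ q, s1 (e q) = e (2 * q + 1) := by
  have hi0 : Function.Injective (fun q : ℕ => 2 * q) := fun a b h => by simpa using h
  have hi1 : Function.Injective (fun q : ℕ => 2 * q + 1) := fun a b h => by simpa using h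
  set s0 := A2_iso _ hi0 with hs0
  set s1 := A2_iso _ hi1 with hs1
  have h00 : star s0 * s0 = 1 := A2_iso_star _ hi0
  have h11 : star s1 * s1 = 1 := A2_iso_star _ hi1
  have e0 : ∀ q, s0 (e q) = e (2 * q) := A2_iso_e _ hi0
  have e1 : ∀ q, s1 (e q) = e (2 * q + 1) := A2_iso_e _ hi1
  have h01 : star s0 * s1 = 0 := by
    apply A2_op_ext
    intro q
    apply A2_ext
    intro p
    have hm : (star s0 * s1) (e q) = (star s0) (s1 (e q)) := rfl
    rw [hm, ContinuousLinearMap.star_eq_adjoint, ContinuousLinearMap.adjoint_inner_right, e0, e1,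
      A2_inner_ee, if_neg (by omega)]
    simp
  have h10 : star s1 * s0 = 0 := by
    have := congrArg star h01
    simpa using this
  refine ⟨s0, s1, h00, h11, h01, ?_, e0, e1⟩
  apply A2_op_ext
  intro q
  have a00 : ∀ v, (star s0) (s0 v) = v := fun v => by
    have := congrArg (fun T : BH => T v) h00
    exact this
  have a11 : ∀ v, (star s1) (s1 v) = v := fun v => by
    have := congrArg (fun T : BH => T v) h11
    exact this
  have a01 : ∀ v, (star s0) (s1 v) = 0 := fun v => by
    have := congrArg (fun T : BH => T v) h01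
    exact this
  have a10 : ∀ v, (star s1) (s0 v) = 0 := fun v => by
    have := congrArg (fun T : BH => T v) h10
    exact this
  have hm : (s0 * star s0 + s1 * star s1) (e q) = s0 ((star s0) (e q)) + s1 ((star s1) (e q)) := rfl
  rw [hm]
  rcases Nat.even_or_odd' q with ⟨p, hp | hp⟩
  · rw [hp, ← e0, a00, a10]
    simp
  · rw [hp, ← e1, a01, a11]
    simp

end Pool.Agent.H730R2.GN
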