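import Pool.Agent.H730R2.GN.Base

set_option autoImplicit false

namespace Pool.Agent.H730R2.GN

open Pool.Agent.Helper133.BT Pool.Agent.Helper133.BU
open scoped BoundedContinuousFunction

theorem G2_aux (c : BB) (hc : ‖c‖ = 1) (ε : ℝ) (hε : 0 < ε) (hε1 : ε ≤ 1) :
    ∃ (y : Y) (N : ℕ) (ξ : ℕ → ℂ), ∑ i ∈ Finset.range N, ‖ξ i‖ ^ 2 ≤ 1 ∧
      1 - ε < ‖c y (∑ i ∈ Finset.range N, ξ i • e i)‖ := by
  obtain ⟨y, hy⟩ : ∃ y : Y, 1 - ε / 2 < ‖c y‖ := by
    by_contra hcon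
    push Not at hcon
    have h1 := (ContinuousMap.norm_le c (show (0 : ℝ) ≤ 1 - ε / 2 by linarith)).2 hcon
    rw [hc] at h1
    linarith
  obtain ⟨v, hv1, hv2⟩ := (c y).exists_lt_apply_of_lt_opNorm hy
  have hs : ∀ i : ℕ, lp.single 2 i (v i) = v i • e i := by
    intro i
    unfold e
    rw [← lp.single_smul, smul_eq_mul, mul_one]
  have hsum : HasSum (fun i : ℕ => v i • e i) v := by
    have h1 := lp.hasSum_single (p := 2) (by norm_num) v
    simp_rw [hs] at h1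
    exact h1
  have htend := (((c y).continuous.norm).tendsto v).comp hsum.tendsto_sum_nat
  have hev := htend.eventually_const_lt hv2
  obtain ⟨N, hN⟩ := hev.exists
  refine ⟨y, N, fun i => v i, ?_, ?_⟩
  · have h1 := lp.sum_rpow_le_norm_rpow (p := 2) (by norm_num) v (Finset.range N)
    have h2 : (2 : ENNReal).toReal = ((2 : ℕ) : ℝ) := by norm_num
    rw [h2] at h1
    simp_rw [Real.rpow_natCast] at h1
    refine h1.trans ?_
    exact pow_le_one₀ (norm_nonneg _) hv1.le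
  · have h3 : 1 - ε / 2 < ‖c y (∑ i ∈ Finset.range N, v i • e i)‖ := hN
    linarith

theorem exists_vec (c : BB) (hc : ‖c‖ = 1) (ε : ℝ) (hε : 0 < ε) :
    ∃ (y : Y) (N : ℕ) (ξ : ℕ → ℂ), ∑ i ∈ Finset.range N, ‖ξ i‖ ^ 2 ≤ 1 ∧
      1 - ε < ‖c y (∑ i ∈ Finset.range N, ξ i • e i)‖ := by
  obtain ⟨y, N, ξ, h1, h2⟩ := G2_aux c hc (min ε 1) (lt_min hε one_pos) (min_le_right _ _)
  refine ⟨y, N, ξ, h1, lt_of_le_of_lt ?_ h2⟩
  have := min_le_left ε 1
  linarith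

end Pool.Agent.H730R2.GN
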