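import Pool.Agent.H730R2.GN.Base

namespace Pool.Agent.H730R2.GN

open Pool.Agent.Helper133.BT Pool.Agent.Helper133.BU

theorem exists_x : ∃ x : ℕ → Y, Dn x := by
  haveI : Nonempty Y := ⟨⟨v0 dm, v0_mem dm⟩⟩
  refine ⟨fun m => TopologicalSpace.denseSeq Y (Nat.unpair m).1, ?_⟩
  intro U hU hne n
  obtain ⟨y, hy, q, rfl⟩ := (TopologicalSpace.denseRange_denseSeq Y).inter_open_nonempty U hU hne
  refine ⟨Nat.pair q n, Nat.right_le_pair q n, ?_⟩
  simpa using hy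

end Pool.Agent.H730R2.GN
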