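import Pool.Agent.H730R2.GN.Base
import Pool.Agent.H730R2.GN.Del
import Pool.Agent.H730R2.GN.VV

set_option autoImplicit false

namespace Pool.Agent.H730R2.GN

open Pool.Agent.Helper133.BT Pool.Agent.Helper133.BU
open scoped BoundedContinuousFunction

variable (o : OpData) (x : ℕ → Y)













theorem D1_gen_right {R : Type*} [Ring R] (N : ℕ) (v w : ℕ → R)
    (horth : ∀ i < N, ∀ j < N, w i * v j = if i = j then 1 else 0) (g : ℕ → ℕ → R) (j : ℕ)
    (hj : j ∈ Finset.range N) :
    w j * ∑ i ∈ Finset.range N, ∑ l ∈ Finset.range N, v i * g i l * w l =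
      ∑ l ∈ Finset.range N, g j l * w l := by
  rw [Finset.mul_sum, Finset.sum_eq_single j]
  · rw [Finset.mul_sum]
    refine Finset.sum_congr rfl fun l _ => ?_
    rw [← mul_assoc, ← mul_assoc, horth j (Finset.mem_range.1 hj) j (Finset.mem_range.1 hj),
      if_pos rfl, one_mul]
  · intro k hk hkj
    rw [Finset.mul_sum]
    refine Finset.sum_eq_zero fun l _ => ?_
    rw [← mul_assoc, ← mul_assoc, horth j (Finset.mem_range.1 hj) k (Finset.mem_range.1 hk),
      if_neg (Ne.symm hkj), zero_mul, zero_mul]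
  · intro h
    exact absurd hj h

theorem D1_gen_mul {R : Type*} [Ring R] (N : ℕ) (v w : ℕ → R)
    (horth : ∀ i < N, ∀ j < N, w i * v j = if i = j then 1 else 0) (f g : ℕ → ℕ → R) :
    (∑ i ∈ Finset.range N, ∑ l ∈ Finset.range N, v i * f i l * w l) *
      (∑ i ∈ Finset.range N, ∑ l ∈ Finset.range N, v i * g i l * w l) =
    ∑ i ∈ Finset.range N, ∑ l ∈ Finset.range N, v i *
      (∑ k ∈ Finset.range N, f i k * g k l) * w l := by
  rw [Finset.sum_mul]
  refine Finset.sum_congr rfl fun i _ => ?_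
  rw [Finset.sum_mul]
  have h2 : ∀ j ∈ Finset.range N, v i * f i j * w j *
      (∑ i ∈ Finset.range N, ∑ l ∈ Finset.range N, v i * g i l * w l) =
      ∑ l ∈ Finset.range N, v i * (f i j * g j l) * w l := by
    intro j hj
    rw [mul_assoc, D1_gen_right N v w horth g j hj, Finset.mul_sum]
    refine Finset.sum_congr rfl fun l _ => ?_
    simp only [mul_assoc]
  rw [Finset.sum_congr rfl h2, Finset.sum_comm]
  refine Finset.sum_congr rfl fun l _ => ?_
  rw [Finset.mul_sum, Finset.sum_mul]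

theorem D1_apply (n : ℕ) (F : ℕ → ℕ → C(Y, ℂ)) (y : Y) :
    Ext o x n F y = ∑ i ∈ Finset.range (2 ^ n), ∑ j ∈ Finset.range (2 ^ n),
      V o n i * del o x n (F i j) y * star (V o n j) := by
  unfold Ext
  rw [ContinuousMap.sum_apply]
  refine Finset.sum_congr rfl fun i _ => ?_
  rw [ContinuousMap.sum_apply]
  refine Finset.sum_congr rfl fun j _ => ?_
  rfl

theorem D1_zero (n : ℕ) (y : Y) : del o x n 0 y = 0 := by
  have h1 := del_smul o x n (0 : ℂ) 0
  have h2 : (0 : ℂ) • (0 : C(Y, ℂ)) = 0 := zero_smul ℂ _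
  rw [h2] at h1
  have h3 := congrArg (fun a : BB => a y) h1
  have h4 : ((0 : ℂ) • del o x n 0 : BB) y = (0 : ℂ) • (del o x n 0 y) := rfl
  have h5 : (0 : ℂ) • (del o x n 0 y) = 0 := zero_smul ℂ _
  exact h3.trans (h4.trans h5)

theorem D1_sum (n : ℕ) (s : Finset ℕ) (f : ℕ → C(Y, ℂ)) (y : Y) :
    del o x n (∑ k ∈ s, f k) y = ∑ k ∈ s, del o x n (f k) y := by
  classical
  induction s using Finset.induction_on with
  | empty => rw [Finset.sum_empty, Finset.sum_empty, D1_zero]
  | insert a s ha ih =>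
    rw [Finset.sum_insert ha, Finset.sum_insert ha, del_add, ← ih]
    rfl

theorem Ext_mul (n : ℕ) (F G : ℕ → ℕ → C(Y, ℂ)) :
    Ext o x n F * Ext o x n G = Ext o x n (mm n F G) := by
  refine ContinuousMap.ext fun y => ?_
  have h0 : (Ext o x n F * Ext o x n G) y = Ext o x n F y * Ext o x n G y := rfl
  rw [h0, D1_apply, D1_apply, D1_apply, D1_gen_mul (2 ^ n) (fun i => V o n i)
    (fun i => star (V o n i)) (fun i hi j hj => V_orth o n i j hi hj)]
  refine Finset.sum_congr rfl fun i _ => ?_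
  refine Finset.sum_congr rfl fun j _ => ?_
  unfold mm
  rw [D1_sum]
  congr 2
  refine Finset.sum_congr rfl fun k _ => ?_
  rw [del_mul]
  rfl

theorem Ext_star (n : ℕ) (F : ℕ → ℕ → C(Y, ℂ)) :
    star (Ext o x n F) = Ext o x n (fun i j => star (F j i)) := by
  refine ContinuousMap.ext fun y => ?_
  have h0 : (star (Ext o x n F)) y = star (Ext o x n F y) := rfl
  rw [h0, D1_apply, D1_apply, star_sum]
  conv_rhs => rw [Finset.sum_comm]
  refine Finset.sum_congr rfl fun i _ => ?_
  rw [star_sum]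
  refine Finset.sum_congr rfl fun j _ => ?_
  rw [star_mul, star_mul, star_star, del_star, mul_assoc]
  rfl

theorem Ext_add (n : ℕ) (F G : ℕ → ℕ → C(Y, ℂ)) :
    Ext o x n F + Ext o x n G = Ext o x n (fun i j => F i j + G i j) := by
  refine ContinuousMap.ext fun y => ?_
  have h0 : (Ext o x n F + Ext o x n G) y = Ext o x n F y + Ext o x n G y := rfl
  rw [h0, D1_apply, D1_apply, D1_apply]
  rw [← Finset.sum_add_distrib]
  refine Finset.sum_congr rfl fun i _ => ?_
  rw [← Finset.sum_add_distrib]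
  refine Finset.sum_congr rfl fun j _ => ?_
  rw [del_add]
  have h1 : (del o x n (F i j) + del o x n (G i j)) y =
    del o x n (F i j) y + del o x n (G i j) y := rfl
  rw [h1, mul_add, add_mul]

theorem Ext_const (n : ℕ) (c : ℂ) :
    Ext o x n (fun i j => if i = j then ContinuousMap.const Y c else 0) = c • 1 := by
  refine ContinuousMap.ext fun y => ?_
  have h0 : (c • (1 : BB)) y = c • (1 : BH) := rfl
  rw [h0, D1_apply, ← V_sum o n, Finset.smul_sum]
  refine Finset.sum_congr rfl fun i hi => ?_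
  rw [Finset.sum_eq_single i]
  · rw [if_pos rfl, del_const]
    have h1 : (c • (1 : BB)) y = c • (1 : BH) := rfl
    rw [h1, mul_smul_comm, mul_one, smul_mul_assoc]
  · intro j _ hji
    rw [if_neg (Ne.symm hji), D1_zero, mul_zero, zero_mul]
  · intro h
    exact absurd hi h

end Pool.Agent.H730R2.GN
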