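import Pool.Agent.H730R2.GN.Base
import Pool.Agent.H730R2.GN.Del
import Pool.Agent.H730R2.GN.VV

set_option autoImplicit false

namespace Pool.Agent.H730R2.GN

open Pool.Agent.Helper133.BT Pool.Agent.Helper133.BU
open scoped BoundedContinuousFunction

variable (o : OpData) (x : ℕ → Y)











/-- the statement in an abstract star algebra -/
theorem D2_abs {R : Type*} [Ring R] [StarRing R] [Algebra ℂ R] (n : ℕ) (W W' : ℕ → R)
    (d d' : C(Y, ℂ) → R) (s0 s1 : R) (hs : s0 * star s0 + s1 * star s1 = 1)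
    (h0 : ∀ f, d f * s0 = s0 * d' f) (h1 : ∀ f : C(Y, ℂ), d f * s1 = f (x n) • s1) (hz : d' 0 = 0)
    (hc : ∀ c : ℂ, d' (ContinuousMap.const Y c) = c • 1) (W0 : ∀ i, i < 2 ^ n → W' i = W i * s0)
    (W1 : ∀ i, W' (2 ^ n + i) = W i * s1) (F : ℕ → ℕ → C(Y, ℂ)) :
    ∑ i ∈ Finset.range (2 ^ n), ∑ j ∈ Finset.range (2 ^ n), W i * d (F i j) * star (W j) =
      ∑ i ∈ Finset.range (2 ^ (n + 1)), ∑ j ∈ Finset.range (2 ^ (n + 1)),
        W' i * d' (phi x n F i j) * star (W' j) := by
  have hd : ∀ f : C(Y, ℂ), d f = s0 * d' f * star s0 + f (x n) • (s1 * star s1) := by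
    intro f
    calc d f = d f * (s0 * star s0 + s1 * star s1) := by rw [hs, mul_one]
      _ = (d f * s0) * star s0 + (d f * s1) * star s1 := by
          rw [mul_add, mul_assoc, mul_assoc]
      _ = _ := by
          rw [h0, h1, smul_mul_assoc]
  have h2 : 2 ^ (n + 1) = 2 ^ n + 2 ^ n := by rw [pow_succ]; ring
  rw [h2, Finset.sum_range_add]
  -- the four blocks
  have e00 : ∀ i ∈ Finset.range (2 ^ n), ∀ j ∈ Finset.range (2 ^ n),
      W' i * d' (phi x n F i j) * star (W' j) = W i * (s0 * d' (F i j) * star s0) * star (W j) := by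
    intro i hi j hj
    rw [Finset.mem_range] at hi hj
    have hp : phi x n F i j = F i j := by
      unfold phi
      rw [if_pos ⟨hi, hj⟩]
    rw [hp, W0 i hi, W0 j hj, star_mul]
    simp only [mul_assoc]
  have e01 : ∀ i ∈ Finset.range (2 ^ n), ∀ j ∈ Finset.range (2 ^ n),
      W' i * d' (phi x n F i (2 ^ n + j)) * star (W' (2 ^ n + j)) = 0 := by
    intro i hi j hj
    rw [Finset.mem_range] at hi hj
    have hp : phi x n F i (2 ^ n + j) = 0 := by
      unfold phi
      rw [if_neg (by omega), if_neg (by omega)]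
    rw [hp, hz, mul_zero, zero_mul]
  have e10 : ∀ i ∈ Finset.range (2 ^ n), ∀ j ∈ Finset.range (2 ^ n),
      W' (2 ^ n + i) * d' (phi x n F (2 ^ n + i) j) * star (W' j) = 0 := by
    intro i hi j hj
    rw [Finset.mem_range] at hi hj
    have hp : phi x n F (2 ^ n + i) j = 0 := by
      unfold phi
      rw [if_neg (by omega), if_neg (by omega)]
    rw [hp, hz, mul_zero, zero_mul]
  have e11 : ∀ i ∈ Finset.range (2 ^ n), ∀ j ∈ Finset.range (2 ^ n),
      W' (2 ^ n + i) * d' (phi x n F (2 ^ n + i) (2 ^ n + j)) * star (W' (2 ^ n + j)) =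
        W i * (F i j (x n) • (s1 * star s1)) * star (W j) := by
    intro i hi j hj
    have hp : phi x n F (2 ^ n + i) (2 ^ n + j) = ContinuousMap.const Y (F i j (x n)) := by
      unfold phi
      rw [if_neg (by omega), if_pos (by omega), Nat.add_sub_cancel_left, Nat.add_sub_cancel_left]
    rw [hp, W1, W1, hc, star_mul]
    simp only [mul_smul_comm, smul_mul_assoc, mul_one, mul_assoc]
  have t0 : ∑ i ∈ Finset.range (2 ^ n), ∑ j ∈ Finset.range (2 ^ n + 2 ^ n),
      W' i * d' (phi x n F i j) * star (W' j) =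
      ∑ i ∈ Finset.range (2 ^ n), ∑ j ∈ Finset.range (2 ^ n),
        W i * (s0 * d' (F i j) * star s0) * star (W j) := by
    refine Finset.sum_congr rfl fun i hi => ?_
    rw [Finset.sum_range_add, Finset.sum_congr rfl (e00 i hi), Finset.sum_eq_zero (e01 i hi), add_zero]
  have t1 : ∑ i ∈ Finset.range (2 ^ n), ∑ j ∈ Finset.range (2 ^ n + 2 ^ n),
      W' (2 ^ n + i) * d' (phi x n F (2 ^ n + i) j) * star (W' j) =
      ∑ i ∈ Finset.range (2 ^ n), ∑ j ∈ Finset.range (2 ^ n),
        W i * (F i j (x n) • (s1 * star s1)) * star (W j) := by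
    refine Finset.sum_congr rfl fun i hi => ?_
    rw [Finset.sum_range_add, Finset.sum_eq_zero (e10 i hi), Finset.sum_congr rfl (e11 i hi), zero_add]
  rw [t0, t1, ← Finset.sum_add_distrib]
  refine Finset.sum_congr rfl fun i _ => ?_
  rw [← Finset.sum_add_distrib]
  refine Finset.sum_congr rfl fun j _ => ?_
  rw [hd (F i j), mul_add, add_mul]

theorem D2_cst_mul (A B : BH) : cst (A * B) = cst A * cst B := rfl

theorem D2_V0 (n i : ℕ) (hi : i < 2 ^ n) : V o (n + 1) i = V o n i * o.s0 := by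
  show (if i < 2 ^ n then V o n i * o.s0 else V o n (i - 2 ^ n) * o.s1) = _
  rw [if_pos hi]

theorem D2_V1 (n i : ℕ) : V o (n + 1) (2 ^ n + i) = V o n i * o.s1 := by
  show (if 2 ^ n + i < 2 ^ n then V o n (2 ^ n + i) * o.s0 else V o n (2 ^ n + i - 2 ^ n) * o.s1) = _
  rw [if_neg (by omega), Nat.add_sub_cancel_left]

theorem D2_del_zero (n : ℕ) : del o x n 0 = 0 := by
  have h := del_smul o x n 0 0
  have h1 : (0 : ℂ) • (0 : C(Y, ℂ)) = 0 := zero_smul _ _
  rw [h1] at h
  rw [h]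
  ext1 y
  exact zero_smul ℂ (del o x n 0 y)

theorem D2_ssum : cst o.s0 * star (cst o.s0) + cst o.s1 * star (cst o.s1) = (1 : BB) := by
  ext1 y
  exact o.ssum

theorem Ext_phi (n : ℕ) (F : ℕ → ℕ → C(Y, ℂ)) : Ext o x n F = Ext o x (n + 1) (phi x n F) := by
  unfold Ext
  exact D2_abs (R := BB) x n (fun i => cst (V o n i)) (fun i => cst (V o (n + 1) i))
    (del o x n) (del o x (n + 1)) (cst o.s0) (cst o.s1) (D2_ssum o) (del_s0 o x n) (del_s1 o x n)
    (D2_del_zero o x (n + 1)) (del_const o x (n + 1))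
    (fun i hi => by rw [D2_V0 o n i hi, D2_cst_mul]) (fun i => by rw [D2_V1, D2_cst_mul]) F

end Pool.Agent.H730R2.GN
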