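import Mathlib

set_option autoImplicit false

/-!
MP_704412_an: abstract part of the assembly.
-/

namespace Pool.Agent.H730R2.GN

open Filter Topology

section
variable {B : Type} [CStarAlgebra B]

/-- a star subalgebra from a set -/
def mkS (U : Set B) (hmul : ∀ a ∈ U, ∀ b ∈ U, a * b ∈ U) (hadd : ∀ a ∈ U, ∀ b ∈ U, a + b ∈ U)
    (hstar : ∀ a ∈ U, star a ∈ U) (hc : ∀ c : ℂ, c • (1 : B) ∈ U) : StarSubalgebra ℂ B where
  carrier := U
  mul_mem' := fun ha hb => hmul _ ha _ hb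
  add_mem' := fun ha hb => hadd _ ha _ hb
  algebraMap_mem' := fun c => by rw [Algebra.algebraMap_eq_smul_one]; exact hc c
  star_mem' := fun ha => hstar _ ha

variable (A : StarSubalgebra ℂ B) (hA : IsClosed (A : Set B))

noncomputable abbrev inst : CStarAlgebra A := StarSubalgebra.cstarAlgebra A (h_closed := hA)

include hA in
theorem simpleG
    (hsimp : ∀ I : Set B, I ⊆ A → (∀ a ∈ I, ∀ b ∈ I, a + b ∈ I) → (∀ a ∈ I, ∀ b ∈ A, b * a ∈ I) →
      (∀ a ∈ I, ∀ b ∈ A, a * b ∈ I) → (∃ a ∈ I, a ≠ 0) →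
      ∃ z ∈ I, ∃ r : ℝ, ‖z - (r : ℂ) • (1 : B)‖ < r) :
    letI := inst A hA
    ∀ I : TwoSidedIdeal A, I = ⊥ ∨ I = ⊤ := by
  let _ := inst A hA
  intro I
  by_cases h : ∃ a ∈ I, a ≠ 0
  · right
    obtain ⟨a, ha, ha0⟩ := h
    let I' : Set B := {b | ∃ h : b ∈ A, (⟨b, h⟩ : A) ∈ I}
    obtain ⟨z, ⟨hz1, hz2⟩, r, hr⟩ := hsimp I' (fun b hb => hb.1)
      (fun b hb c hc => ⟨A.add_mem hb.1 hc.1, I.add_mem hb.2 hc.2⟩)
      (fun b hb c hc => ⟨A.mul_mem hc hb.1, I.mul_mem_left ⟨c, hc⟩ ⟨b, hb.1⟩ hb.2⟩)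
      (fun b hb c hc => ⟨A.mul_mem hb.1 hc, I.mul_mem_right ⟨b, hb.1⟩ ⟨c, hc⟩ hb.2⟩)
      ⟨a.1, ⟨a.2, ha⟩, fun h => ha0 (Subtype.ext h)⟩
    have hr0 : 0 < r := lt_of_le_of_lt (norm_nonneg _) hr
    set w : A := (⟨z, hz1⟩ : A) with hw
    have hw1 : ‖w - (r : ℂ) • (1 : A)‖ < r := hr
    have hrc : (r : ℂ) ≠ 0 := by exact_mod_cast hr0.ne'
    have h2 : ‖(1 : A) - ((r : ℂ)⁻¹) • w‖ < 1 := by
      have : (1 : A) - ((r : ℂ)⁻¹) • w = -(((r : ℂ)⁻¹) • (w - (r : ℂ) • (1 : A))) := by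
        rw [smul_sub, smul_smul, inv_mul_cancel₀ hrc, one_smul]; abel
      rw [this, norm_neg, norm_smul, norm_inv, Complex.norm_real, Real.norm_of_nonneg hr0.le]
      rw [inv_mul_lt_iff₀ hr0]; simpa using hw1
    have hunit : IsUnit (((r : ℂ)⁻¹) • w) := by
      have := (Units.oneSub ((1 : A) - ((r : ℂ)⁻¹) • w) h2).isUnit
      simpa using this
    obtain ⟨u, hu⟩ := hunit
    have h3 : ((r : ℂ)⁻¹) • w ∈ I := by
      have : ((r : ℂ)⁻¹) • w = (((r : ℂ)⁻¹) • (1 : A)) * w := by simp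
      rw [this]
      exact I.mul_mem_left _ _ hz2
    have h4 : (1 : A) ∈ I := by
      have := I.mul_mem_left ((u⁻¹ : Aˣ) : A) _ h3
      rw [← hu] at this
      simpa using this
    exact (TwoSidedIdeal.one_mem_iff I).mp h4
  · left
    push Not at h
    refine TwoSidedIdeal.ext fun a => ?_
    rw [TwoSidedIdeal.mem_bot]
    exact ⟨fun ha => h a ha, fun ha => ha ▸ I.zero_mem⟩

end

section
variable {B : Type} [CStarAlgebra B] {C : Type} [CStarAlgebra C]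

/-- small in the limit -/
def sm (ρ : ℕ → B →⋆ₐ[ℂ] C) (P Q : C) (a : B) : Prop :=
  Tendsto (fun N => ‖Q * ρ N a * P‖) atTop (𝓝 0)

variable {ρ : ℕ → B →⋆ₐ[ℂ] C} {P Q : C}

lemma rho_norm (N : ℕ) (a : B) : ‖ρ N a‖ ≤ ‖a‖ := NonUnitalStarAlgHom.norm_apply_le (ρ N) a

lemma sm_of_le {f : ℕ → ℝ} {a : B} (h : ∀ N, ‖Q * ρ N a * P‖ ≤ f N)
    (hf : Tendsto f atTop (𝓝 0)) : sm ρ P Q a :=
  squeeze_zero (fun _ => norm_nonneg _) h hf

lemma sm_add {a b : B} (ha : sm ρ P Q a) (hb : sm ρ P Q b) : sm ρ P Q (a + b) := by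
  have h := Tendsto.add ha hb
  rw [add_zero] at h
  refine sm_of_le (fun N => ?_) h
  rw [map_add, mul_add, add_mul]
  exact norm_add_le _ _

lemma sm_mul (hPQ : P + Q = 1) (hP : ‖P‖ ≤ 1) (hQ : ‖Q‖ ≤ 1) {a b : B} (ha : sm ρ P Q a)
    (hb : sm ρ P Q b) : sm ρ P Q (a * b) := by
  have h := (Tendsto.mul_const ‖b‖ ha).add (Tendsto.const_mul ‖a‖ hb)
  rw [zero_mul, mul_zero, add_zero] at h
  refine sm_of_le (fun N => ?_) h
  have h1 : Q * ρ N (a * b) * P = Q * ρ N a * P * (ρ N b * P) + Q * ρ N a * (Q * ρ N b * P) := by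
    rw [map_mul]
    calc Q * (ρ N a * ρ N b) * P = Q * ρ N a * (P + Q) * (ρ N b * P) := by
          rw [hPQ]; noncomm_ring
      _ = _ := by noncomm_ring
  rw [h1]
  refine (norm_add_le _ _).trans (add_le_add ?_ ?_)
  · refine (norm_mul_le _ _).trans (mul_le_mul_of_nonneg_left ?_ (norm_nonneg _))
    calc ‖ρ N b * P‖ ≤ ‖ρ N b‖ * ‖P‖ := norm_mul_le _ _
      _ ≤ ‖b‖ * 1 := mul_le_mul (rho_norm N b) hP (norm_nonneg _) (norm_nonneg _)
      _ = ‖b‖ := mul_one _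
  · refine (norm_mul_le _ _).trans (mul_le_mul_of_nonneg_right ?_ (norm_nonneg _))
    calc ‖Q * ρ N a‖ ≤ ‖Q‖ * ‖ρ N a‖ := norm_mul_le _ _
      _ ≤ 1 * ‖a‖ := mul_le_mul hQ (rho_norm N a) (norm_nonneg _) zero_le_one
      _ = ‖a‖ := one_mul _

lemma sm_closed (hP : ‖P‖ ≤ 1) (hQ : ‖Q‖ ≤ 1) : IsClosed {a : B | sm ρ P Q a} := by
  rw [← closure_subset_iff_isClosed]
  intro a ha
  show Tendsto _ _ _
  rw [Metric.tendsto_atTop]
  intro ε hε
  obtain ⟨b, hb, hab⟩ := Metric.mem_closure_iff.mp ha (ε / 2) (half_pos hε)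
  obtain ⟨N, hN⟩ := Metric.tendsto_atTop.mp hb (ε / 2) (half_pos hε)
  refine ⟨N, fun n hn => ?_⟩
  have h1 := hN n hn
  rw [Real.dist_eq, sub_zero, abs_of_nonneg (norm_nonneg _)] at h1 ⊢
  have h2 : Q * ρ n a * P = Q * ρ n (a - b) * P + Q * ρ n b * P := by
    rw [map_sub]; noncomm_ring
  have h3 : ‖Q * ρ n (a - b) * P‖ ≤ ‖a - b‖ := by
    calc ‖Q * ρ n (a - b) * P‖ ≤ ‖Q * ρ n (a - b)‖ * ‖P‖ := norm_mul_le _ _
      _ ≤ (‖Q‖ * ‖ρ n (a - b)‖) * ‖P‖ := mul_le_mul_of_nonneg_right (norm_mul_le _ _) (norm_nonneg _)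
      _ ≤ (1 * ‖a - b‖) * 1 := by
          refine mul_le_mul ?_ hP (norm_nonneg _) (by positivity)
          exact mul_le_mul hQ (rho_norm n _) (norm_nonneg _) zero_le_one
      _ = ‖a - b‖ := by ring
  rw [dist_eq_norm] at hab
  calc ‖Q * ρ n a * P‖ ≤ ‖Q * ρ n (a - b) * P‖ + ‖Q * ρ n b * P‖ := by rw [h2]; exact norm_add_le _ _
    _ < ε / 2 + ε / 2 := add_lt_add (lt_of_le_of_lt h3 hab) h1
    _ = ε := by ring

lemma sm_star (hPs : star P = P) (hQs : star Q = Q) {a : B} (ha : sm ρ P Q a) :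
    sm ρ Q P (star a) := by
  refine sm_of_le (f := fun N => ‖Q * ρ N a * P‖) (fun N => ?_) ha
  rw [← norm_star (Q * ρ N a * P)]
  simp only [star_mul, hPs, hQs, map_star]
  rw [mul_assoc]

variable (A : StarSubalgebra ℂ B) (hA : IsClosed (A : Set B))

/-- no finite subset generates -/
theorem notfg (hsimple : letI := inst A hA
      ∀ I : TwoSidedIdeal A, I = ⊥ ∨ I = ⊤)
    (hnf : ∀ (k : ℕ) (s : Fin k → B), (∀ l, s l ∈ A) →
      ∃ (P Q : C) (ρ : ℕ → B →⋆ₐ[ℂ] C), P + Q = 1 ∧ star P = P ∧ star Q = Q ∧ ‖P‖ ≤ 1 ∧ ‖Q‖ ≤ 1 ∧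
        P ≠ 0 ∧ P * Q = 0 ∧ (∀ l, sm ρ P Q (s l) ∧ sm ρ Q P (s l)) ∧
        ∃ b ∈ A, b ≠ 0 ∧ ∀ N, ρ N b * P = 0) :
    letI := inst A hA
    ∀ S : Set A, S.Finite → (StarAlgebra.adjoin ℂ S).topologicalClosure ≠ ⊤ := by
  let _ := inst A hA
  intro S hS htop
  obtain ⟨k, s, hs⟩ := hS.fin_param
  obtain ⟨P, Q, ρ, hPQ, hPs, hQs, hP, hQ, hP0, hPQ0, hsm, b, hbA, hb0, hbP⟩ :=
    hnf k (fun l => (s l : B)) (fun l => (s l).2)
  have hQP : Q + P = 1 := by rw [add_comm]; exact hPQ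
  have hQP0 : Q * P = 0 := by
    have := congrArg star hPQ0
    simpa [star_mul, hPs, hQs] using this
  -- the set of good elements
  let G : StarSubalgebra ℂ A :=
    { carrier := {a | sm ρ P Q (a : B) ∧ sm ρ Q P (a : B)}
      mul_mem' := fun {a b} ha hb => ⟨sm_mul hPQ hP hQ ha.1 hb.1, sm_mul hQP hQ hP ha.2 hb.2⟩
      add_mem' := fun {a b} ha hb => ⟨sm_add ha.1 hb.1, sm_add ha.2 hb.2⟩
      algebraMap_mem' := by
        intro c
        have key : ∀ (P Q : C), Q * P = 0 → sm ρ P Q ((algebraMap ℂ A c : A) : B) := by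
          intro P Q h0
          have h1 : ((algebraMap ℂ A c : A) : B) = algebraMap ℂ B c := rfl
          refine sm_of_le (f := fun _ => 0) (fun N => ?_) tendsto_const_nhds
          rw [h1, AlgHomClass.commutes, Algebra.algebraMap_eq_smul_one, mul_smul_comm, mul_one,
            smul_mul_assoc, h0, smul_zero, norm_zero]
        exact ⟨key P Q hQP0, key Q P hPQ0⟩
      star_mem' := fun {a} ha => ⟨sm_star hQs hPs ha.2, sm_star hPs hQs ha.1⟩ }
  have hGclosed : IsClosed (G : Set A) := by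
    have h1 : IsClosed {a : B | sm ρ P Q a} := sm_closed hP hQ
    have h2 : IsClosed {a : B | sm ρ Q P a} := sm_closed hQ hP
    exact (h1.preimage continuous_subtype_val).inter (h2.preimage continuous_subtype_val)
  have hGS : StarAlgebra.adjoin ℂ S ≤ G := by
    rw [StarAlgebra.adjoin_le_iff]
    intro a ha
    rw [← hs.2] at ha
    obtain ⟨l, rfl⟩ := ha
    exact hsm l
  have hGtop : ∀ a : A, sm ρ P Q (a : B) := by
    intro a
    have h1 : a ∈ (StarAlgebra.adjoin ℂ S).topologicalClosure := by rw [htop]; trivial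
    have h2 := StarSubalgebra.topologicalClosure_minimal hGS hGclosed h1
    exact h2.1
  -- the ideal
  let J : TwoSidedIdeal A := TwoSidedIdeal.mk' {a | sm ρ P 1 (a : B)}
    (by
      refine sm_of_le (f := fun _ => 0) (fun N => ?_) tendsto_const_nhds
      have : ((0 : A) : B) = 0 := rfl
      rw [this, map_zero, mul_zero, zero_mul, norm_zero])
    (fun {a b} ha hb => sm_add ha hb)
    (by
      intro a ha
      refine sm_of_le (f := fun N => ‖1 * ρ N (a : B) * P‖) (fun N => ?_) ha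
      have : ((-a : A) : B) = -(a : B) := rfl
      rw [this, map_neg, mul_neg, neg_mul, norm_neg])
    (by
      intro c a ha
      have h := Tendsto.const_mul ‖(c : B)‖ ha
      rw [mul_zero] at h
      refine sm_of_le (fun N => ?_) h
      have h0 : ((c * a : A) : B) = (c : B) * (a : B) := rfl
      rw [h0, map_mul, one_mul, one_mul, mul_assoc]
      exact (norm_mul_le _ _).trans (mul_le_mul_of_nonneg_right (rho_norm N _) (norm_nonneg _)))
    (by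
      intro a c ha
      have h := (Tendsto.mul_const ‖(c : B)‖ ha).add (Tendsto.const_mul ‖(a : B)‖ (hGtop c))
      rw [zero_mul, mul_zero, add_zero] at h
      refine sm_of_le (fun N => ?_) h
      have h0 : ((a * c : A) : B) = (a : B) * (c : B) := rfl
      have h1 : (1 : C) * ρ N ((a : B) * (c : B)) * P =
          (1 * ρ N (a : B) * P) * (ρ N (c : B) * P) + ρ N (a : B) * (Q * ρ N (c : B) * P) := by
        rw [map_mul]
        calc (1 : C) * (ρ N (a : B) * ρ N (c : B)) * P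
            = ρ N (a : B) * (P + Q) * (ρ N (c : B) * P) := by rw [hPQ]; noncomm_ring
          _ = _ := by noncomm_ring
      rw [h0, h1]
      refine (norm_add_le _ _).trans (add_le_add ?_ ?_)
      · refine (norm_mul_le _ _).trans (mul_le_mul_of_nonneg_left ?_ (norm_nonneg _))
        calc ‖ρ N (c : B) * P‖ ≤ ‖ρ N (c : B)‖ * ‖P‖ := norm_mul_le _ _
          _ ≤ ‖(c : B)‖ * 1 := mul_le_mul (rho_norm N _) hP (norm_nonneg _) (norm_nonneg _)
          _ = _ := mul_one _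
      · exact (norm_mul_le _ _).trans (mul_le_mul_of_nonneg_right (rho_norm N _) (norm_nonneg _)))
  have hJ : ∀ a : A, a ∈ J ↔ sm ρ P 1 (a : B) := fun a => TwoSidedIdeal.mem_mk' _ _ _ _ _ _ _
  rcases hsimple J with h | h
  · have h1 : (⟨b, hbA⟩ : A) ∈ J := by
      rw [hJ]
      refine sm_of_le (f := fun _ => 0) (fun N => ?_) tendsto_const_nhds
      rw [one_mul, hbP N, norm_zero]
    rw [h, TwoSidedIdeal.mem_bot] at h1
    exact hb0 (congrArg Subtype.val h1)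
  · have h1 : (1 : A) ∈ J := by rw [h]; trivial
    rw [hJ] at h1
    have h2 : Tendsto (fun _ : ℕ => ‖P‖) atTop (𝓝 0) := by
      refine h1.congr fun N => ?_
      have : ((1 : A) : B) = 1 := rfl
      rw [this, map_one, one_mul, one_mul]
    have h3 := tendsto_nhds_unique h2 tendsto_const_nhds
    exact hP0 (norm_eq_zero.mp h3.symm)

end

section
variable {B : Type} [CStarAlgebra B] {C : Type} [CStarAlgebra C]

/-- the final assembly -/
theorem assembleG [Nontrivial B] (U : Set B) (hmul : ∀ a ∈ U, ∀ b ∈ U, a * b ∈ U)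
    (hadd : ∀ a ∈ U, ∀ b ∈ U, a + b ∈ U)
    (hstar : ∀ a ∈ U, star a ∈ U) (hc : ∀ c : ℂ, c • (1 : B) ∈ U)
    (hsep : TopologicalSpace.IsSeparable U)
    (hsimp : ∀ I : Set B, I ⊆ closure U → (∀ a ∈ I, ∀ b ∈ I, a + b ∈ I) →
      (∀ a ∈ I, ∀ b ∈ closure U, b * a ∈ I) →
      (∀ a ∈ I, ∀ b ∈ closure U, a * b ∈ I) → (∃ a ∈ I, a ≠ 0) →
      ∃ z ∈ I, ∃ r : ℝ, ‖z - (r : ℂ) • (1 : B)‖ < r)
    (hnf : ∀ (k : ℕ) (s : Fin k → B), (∀ l, s l ∈ closure U) →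
      ∃ (P Q : C) (ρ : ℕ → B →⋆ₐ[ℂ] C), P + Q = 1 ∧ star P = P ∧ star Q = Q ∧ ‖P‖ ≤ 1 ∧ ‖Q‖ ≤ 1 ∧
        P ≠ 0 ∧ P * Q = 0 ∧ (∀ l, sm ρ P Q (s l) ∧ sm ρ Q P (s l)) ∧
        ∃ b ∈ U, b ≠ 0 ∧ ∀ N, ρ N b * P = 0) :
    ∃ (A : Type) (_ : CStarAlgebra A), Nontrivial A ∧ TopologicalSpace.SeparableSpace A ∧
      (∀ I : TwoSidedIdeal A, I = ⊥ ∨ I = ⊤) ∧
      ∀ S : Set A, S.Finite → (StarAlgebra.adjoin ℂ S).topologicalClosure ≠ ⊤ := by
  let A : StarSubalgebra ℂ B := (mkS U hmul hadd hstar hc).topologicalClosure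
  have hA : IsClosed (A : Set B) := (mkS U hmul hadd hstar hc).isClosed_topologicalClosure
  have hmem : ∀ a, a ∈ A ↔ a ∈ closure U := fun a => Iff.rfl
  have hs := simpleG A hA (by
    intro I h1 h2 h3 h4 h5
    exact hsimp I h1 h2 h3 h4 h5)
  have hn := notfg (C := C) A hA hs (by
    intro k s h
    obtain ⟨P, Q, ρ, h1, h2, h3, h4, h5, h6, h7, h8, b, hb, hb0, hb1⟩ := hnf k s h
    exact ⟨P, Q, ρ, h1, h2, h3, h4, h5, h6, h7, h8, b, subset_closure hb, hb0, hb1⟩)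
  refine ⟨A, inst A hA, ?_, ?_, hs, hn⟩
  · refine ⟨⟨0, A.zero_mem⟩, ⟨1, A.one_mem⟩, fun h => ?_⟩
    exact zero_ne_one (congrArg Subtype.val h)
  · have h : TopologicalSpace.IsSeparable (A : Set B) := hsep.closure
    exact h.separableSpace

end

end Pool.Agent.H730R2.GN
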