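import Pool.Agent.H730R2.GN.Base

set_option autoImplicit false

namespace Pool.Agent.H730R2.GN

open Pool.Agent.Helper133.BT Pool.Agent.Helper133.BU
open scoped BoundedContinuousFunction

theorem G1_sum_sq {N : ℕ} (c : Fin N → BH) (h : ‖∑ a, star (c a) * c a‖ ≤ 1) (v : H) :
    ∑ a, ‖c a v‖ ^ 2 ≤ ‖v‖ ^ 2 := by
  have h1 : ∑ a, ‖c a v‖ ^ 2 = (inner ℂ ((∑ a, star (c a) * c a) v) v : ℂ).re := by
    rw [sum_apply, sum_inner, Complex.re_sum]
    refine Finset.sum_congr rfl fun a _ => ?_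
    have h2 : (star (c a) * c a) v = ContinuousLinearMap.adjoint (c a) (c a v) := rfl
    rw [h2, ContinuousLinearMap.adjoint_inner_left, inner_self_eq_norm_sq_to_K]
    norm_cast
  rw [h1]
  calc (inner ℂ ((∑ a, star (c a) * c a) v) v : ℂ).re
      ≤ ‖(inner ℂ ((∑ a, star (c a) * c a) v) v : ℂ)‖ := Complex.re_le_norm _
    _ ≤ ‖(∑ a, star (c a) * c a) v‖ * ‖v‖ := norm_inner_le_norm _ _
    _ ≤ (1 * ‖v‖) * ‖v‖ := by
        refine mul_le_mul_of_nonneg_right ?_ (norm_nonneg _)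
        exact (ContinuousLinearMap.le_opNorm _ _).trans
          (mul_le_mul_of_nonneg_right h (norm_nonneg _))
    _ = ‖v‖ ^ 2 := by ring

theorem G1_op {N : ℕ} (c : Fin N → BH) (d : BH) (h : ‖∑ a, star (c a) * c a‖ ≤ 1) :
    ‖∑ a, star (c a) * d * c a‖ ≤ ‖d‖ := by
  refine ContinuousLinearMap.opNorm_le_bound _ (norm_nonneg d) fun v => ?_
  set T : BH := ∑ a, star (c a) * d * c a with hT
  have h1 : ‖T v‖ ^ 2 = ∑ a, (inner ℂ (d (c a v)) (c a (T v)) : ℂ).re := by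
    have h2 : ((‖T v‖ ^ 2 : ℝ)) = (inner ℂ (T v) (T v) : ℂ).re := by
      rw [inner_self_eq_norm_sq_to_K]
      norm_cast
    rw [h2]
    nth_rewrite 1 [hT]
    rw [sum_apply, sum_inner, Complex.re_sum]
    refine Finset.sum_congr rfl fun a _ => ?_
    have h3 : (star (c a) * d * c a) v = ContinuousLinearMap.adjoint (c a) (d (c a v)) := rfl
    rw [h3, ContinuousLinearMap.adjoint_inner_left]
  have h4 : ‖T v‖ ^ 2 ≤ ‖d‖ * ‖v‖ * ‖T v‖ := by
    rw [h1]
    calc ∑ a, (inner ℂ (d (c a v)) (c a (T v)) : ℂ).re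
        ≤ ∑ a, ‖d‖ * (‖c a v‖ * ‖c a (T v)‖) := by
          refine Finset.sum_le_sum fun a _ => ?_
          calc (inner ℂ (d (c a v)) (c a (T v)) : ℂ).re
              ≤ ‖(inner ℂ (d (c a v)) (c a (T v)) : ℂ)‖ := Complex.re_le_norm _
            _ ≤ ‖d (c a v)‖ * ‖c a (T v)‖ := norm_inner_le_norm _ _
            _ ≤ (‖d‖ * ‖c a v‖) * ‖c a (T v)‖ :=
                mul_le_mul_of_nonneg_right (ContinuousLinearMap.le_opNorm _ _) (norm_nonneg _)
            _ = ‖d‖ * (‖c a v‖ * ‖c a (T v)‖) := by ring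
      _ = ‖d‖ * ∑ a, ‖c a v‖ * ‖c a (T v)‖ := by rw [Finset.mul_sum]
      _ ≤ ‖d‖ * (√(∑ a, ‖c a v‖ ^ 2) * √(∑ a, ‖c a (T v)‖ ^ 2)) :=
          mul_le_mul_of_nonneg_left (Real.sum_mul_le_sqrt_mul_sqrt _ _ _) (norm_nonneg _)
      _ ≤ ‖d‖ * (‖v‖ * ‖T v‖) := by
          refine mul_le_mul_of_nonneg_left ?_ (norm_nonneg _)
          refine mul_le_mul ?_ ?_ (Real.sqrt_nonneg _) (norm_nonneg _)
          · exact (Real.sqrt_le_sqrt (G1_sum_sq c h v)).trans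
              (le_of_eq (Real.sqrt_sq (norm_nonneg _)))
          · exact (Real.sqrt_le_sqrt (G1_sum_sq c h (T v))).trans
              (le_of_eq (Real.sqrt_sq (norm_nonneg _)))
      _ = ‖d‖ * ‖v‖ * ‖T v‖ := by ring
  rcases eq_or_lt_of_le (norm_nonneg (T v)) with h5 | h5
  · rw [← h5]; positivity
  · rw [pow_two] at h4
    exact le_of_mul_le_mul_right h4 h5

theorem norm_sum_conj {N : ℕ} (C : Fin N → BB) (d : BB) (h : ‖∑ a, star (C a) * C a‖ ≤ 1) :
    ‖∑ a, star (C a) * d * C a‖ ≤ ‖d‖ := by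
  rw [ContinuousMap.norm_le _ (norm_nonneg d)]
  intro y
  have h1 : (∑ a, star (C a) * d * C a) y = ∑ a, star (C a y) * d y * C a y := by
    rw [ContinuousMap.sum_apply]
    rfl
  have h2 : (∑ a, star (C a) * C a) y = ∑ a, star (C a y) * C a y := by
    rw [ContinuousMap.sum_apply]
    rfl
  rw [h1]
  refine (G1_op (fun a => C a y) (d y) ?_).trans (d.norm_coe_le_norm y)
  rw [← h2]
  exact ((∑ a, star (C a) * C a).norm_coe_le_norm y).trans h

end Pool.Agent.H730R2.GN
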