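import Pool.Agent.H730R2.GN.Base

set_option autoImplicit false

namespace Pool.Agent.H730R2.GN

open Pool.Agent.Helper133.BT Pool.Agent.Helper133.BU
open scoped BoundedContinuousFunction

variable (o : OpData) (x : ℕ → Y)

open Classical in
/-- extension of a function on `Y` by zero -/
noncomputable def E_ext (φ : Y → ℝ) (v : Om dm) : ℝ := if h : v ∈ PP dm then φ ⟨v, h⟩ else 0

theorem E_ext_cont (φ : Y → ℝ) (hφ : Continuous φ) : ContinuousOn (E_ext φ) (PP dm) := by
  rw [continuousOn_iff_continuous_domRestrict]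
  have : (PP dm).domRestrict (E_ext φ) = φ := by
    funext v
    simp only [Set.domRestrict_apply, E_ext, v.2, dite_true]
  rw [this]
  exact hφ

theorem E_ext_apply (φ : Y → ℝ) (v : Om dm) (hv : v ∈ PP dm) : E_ext φ v = φ ⟨v, hv⟩ := by
  simp only [E_ext, hv, dite_true]

/-- the real functions: real and imaginary parts of the entries -/
noncomputable def E_ent (G : ℕ → ℕ → C(Y, ℂ)) (t i' j : ℕ) (y : Y) : ℝ :=
  if t = 0 then (G i' j y).re else if t = 1 then (G i' j y).im
  else if t = 2 then (G j i' y).re else (G j i' y).im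

theorem E_ent_cont (G : ℕ → ℕ → C(Y, ℂ)) (t i' j : ℕ) : Continuous (E_ent G t i' j) := by
  unfold E_ent
  split_ifs
  · exact Complex.continuous_re.comp (G i' j).continuous
  · exact Complex.continuous_im.comp (G i' j).continuous
  · exact Complex.continuous_re.comp (G j i').continuous
  · exact Complex.continuous_im.comp (G j i').continuous

/-- parity for the character product -/
theorem E_chi_i {m i i' j k : ℕ} (hmi : m ≤ i) (hi' : i' < 2 ^ m) (hj1 : 2 ^ i ≤ j)
    (hj2 : j < 2 ^ (i + 1)) (a : ZMod 2)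
    (ha : a = if k = i then 1 else if i < k then 0 else
      if 2 ^ k ≤ i' ∧ i' < 2 ^ (k + 1) then 1 else 0) :
    chi k i' * chi k j = ((sgn a : ℝ) : ℂ) := by
  have h01 : (1 : ZMod 2) ≠ 0 := by decide
  have h1 : (2 : ℕ) ^ m ≤ 2 ^ i := Nat.pow_le_pow_right (by norm_num) hmi
  rcases lt_trichotomy k i with h | h | h
  · have h2 : (2 : ℕ) ^ (k + 1) ≤ 2 ^ i := Nat.pow_le_pow_right (by norm_num) h
    have e1 : ¬ (2 ^ k ≤ j ∧ j < 2 ^ (k + 1)) := by omega
    rw [ha, if_neg (by omega), if_neg (by omega)]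
    unfold chi
    rw [if_neg e1]
    by_cases h3 : 2 ^ k ≤ i' ∧ i' < 2 ^ (k + 1)
    · rw [if_pos h3, if_pos h3]; simp [sgn]
    · rw [if_neg h3, if_neg h3]; simp [sgn]
  · subst h
    rw [ha, if_pos rfl]
    unfold chi
    rw [if_neg (by omega), if_pos ⟨hj1, hj2⟩]
    simp [sgn]
  · have h2 : (2 : ℕ) ^ (i + 1) ≤ 2 ^ k := Nat.pow_le_pow_right (by norm_num) h
    have h3 : (2 : ℕ) ^ i ≤ 2 ^ (i + 1) := Nat.pow_le_pow_right (by norm_num) (by omega)
    rw [ha, if_neg (by omega), if_pos h]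
    unfold chi
    rw [if_neg (by omega), if_neg (by omega)]
    simp [sgn]

theorem E_ent_fl (n : ℕ) (G : ℕ → ℕ → C(Y, ℂ)) (hG : Equi n G) (t i' j k : ℕ) (hi' : i' < 2 ^ n)
    (hj : j < 2 ^ n) (c : ℝ) (hc : chi k i' * chi k j = (c : ℂ)) (y : Y) :
    E_ent G t i' j (fl k y) = c * E_ent G t i' j y := by
  have h1 := hG i' hi' j hj k y
  have h2 := hG j hj i' hi' k y
  rw [hc] at h1
  rw [mul_comm (chi k j), hc] at h2
  unfold E_ent
  rw [h1, h2]
  split_ifs <;> simp

theorem obstruct (m n k : ℕ) (hmn : m ≤ n) (hk : k ≤ 2 ^ m) (F : Fin k → ℕ → ℕ → C(Y, ℂ))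
    (hF : ∀ l, Equi n (F l)) :
    ∃ y : Y, ∀ l, ∀ i < 2 ^ m, ∀ j < 2 ^ n, 2 ^ m ≤ j → F l i j y = 0 ∧ F l j i y = 0 := by
  classical
  -- decoding
  let b : ℕ → ℕ := fun i => 4 * (2 ^ m * 2 ^ i)
  have hb : ∀ i, 0 < b i := fun i => by positivity
  let t : ℕ → ℕ → ℕ := fun i r => (r % b i) % 4
  let q : ℕ → ℕ → ℕ := fun i r => (r % b i) / 4
  let ii : ℕ → ℕ → ℕ := fun i r => q i r % 2 ^ m
  let jj : ℕ → ℕ → ℕ := fun i r => 2 ^ i + q i r / 2 ^ m
  have hii : ∀ i r, ii i r < 2 ^ m := fun i r => Nat.mod_lt _ (by positivity)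
  have hjj1 : ∀ i r, 2 ^ i ≤ jj i r := fun i r => Nat.le_add_right _ _
  have hjj2 : ∀ i r, jj i r < 2 ^ (i + 1) := by
    intro i r
    have h1 : r % b i < b i := Nat.mod_lt _ (hb i)
    have h2 : q i r < 2 ^ m * 2 ^ i := by
      show (r % b i) / 4 < _
      rw [Nat.div_lt_iff_lt_mul (by norm_num)]
      have : b i = 4 * (2 ^ m * 2 ^ i) := rfl
      omega
    have h3 : q i r / 2 ^ m < 2 ^ i := by
      rw [Nat.div_lt_iff_lt_mul (by positivity)]
      rw [mul_comm]; exact h2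
    show 2 ^ i + q i r / 2 ^ m < 2 ^ (i + 1)
    rw [pow_succ]; omega
  let p : ℕ → ℕ → ℕ → ZMod 2 := fun i r k' => if k' = i then 1 else if i < k' then 0 else
    if m ≤ i ∧ r / b i < k ∧ (2 ^ k' ≤ ii i r ∧ ii i r < 2 ^ (k' + 1)) then 1 else 0
  let f : ℕ → ℕ → Om dm → ℝ := fun i r =>
    if h : m ≤ i ∧ r / b i < k then E_ext (E_ent (F ⟨r / b i, h.2⟩) (t i r) (ii i r) (jj i r))
    else fun v => v i 0
  have htri := triangular dm (fun i => Nat.one_le_pow _ _ (by norm_num)) n p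
    (fun i r => by simp [p])
    (fun i r k' h => by
      have e1 : ¬ k' = i := by omega
      simp [p, e1, h])
    f
    (fun i r => by
      by_cases h : m ≤ i ∧ r / b i < k
      · simp only [f, h]
        exact E_ext_cont _ (E_ent_cont _ _ _ _)
      · simp only [f, h]
        exact ((continuous_apply (0 : Fin (dm i + 1))).comp (continuous_apply i)).continuousOn)
    (fun i hi r hr k' hk' v hv => by
      by_cases h : m ≤ i ∧ r / b i < k
      · have h2n : (2 : ℕ) ^ m ≤ 2 ^ n := Nat.pow_le_pow_right (by norm_num) hmn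
        have h3n : (2 : ℕ) ^ (i + 1) ≤ 2 ^ n := Nat.pow_le_pow_right (by norm_num) hi
        have h4 := E_ent_fl n (F ⟨r / b i, h.2⟩) (hF _) (t i r) (ii i r) (jj i r) k'
          (lt_of_lt_of_le (hii i r) h2n) (lt_of_lt_of_le (hjj2 i r) h3n) (sgn (p i r k'))
          (E_chi_i h.1 (hii i r) (hjj1 i r) (hjj2 i r) _ (by
            simp only [p, h, true_and])) ⟨v, hv⟩
        simp only [f, h]
        simp only [and_self, dite_true]
        rw [E_ext_apply _ _ hv, E_ext_apply _ _ (flp_mem dm k' hv)]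
        exact h4
      · have h5 : f i r = fun v => v i 0 := by simp only [f, h]; rfl
        have h6 : p i r k' = if k' = i then 1 else 0 := by
          by_cases e1 : k' = i
          · simp [p, e1]
          · have : ¬ (m ≤ i ∧ r / b i < k ∧ (2 ^ k' ≤ ii i r ∧ ii i r < 2 ^ (k' + 1))) :=
              fun hh => h ⟨hh.1, hh.2.1⟩
            simp [p, e1, this]
        rw [h5, h6]
        beta_reduce
        unfold flp
        by_cases e1 : k' = i
        · subst e1
          simp [sgn]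
        · have e2 : ¬ i = k' := fun h => e1 h.symm
          simp [e1, e2, sgn])
  obtain ⟨v, hv, hz⟩ := htri
  refine ⟨⟨v, hv⟩, ?_⟩
  intro l i' hi' j hj hmj
  set i : ℕ := Nat.log 2 j with hi
  have hj0 : j ≠ 0 := by
    have : 0 < 2 ^ m := by positivity
    omega
  have hj1 : 2 ^ i ≤ j := Nat.pow_log_le_self 2 hj0
  have hj2 : j < 2 ^ (i + 1) := Nat.lt_pow_succ_log_self (by norm_num) j
  have hmi : m ≤ i := by
    by_contra hcon
    have : (2 : ℕ) ^ (i + 1) ≤ 2 ^ m := Nat.pow_le_pow_right (by norm_num) (by omega)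
    omega
  have hin : i < n := by
    by_contra hcon
    have : (2 : ℕ) ^ n ≤ 2 ^ i := Nat.pow_le_pow_right (by norm_num) (by omega)
    omega
  have key : ∀ t' < 4, E_ent (F l) t' i' j ⟨v, hv⟩ = 0 := by
    intro t' ht'
    set Q : ℕ := (j - 2 ^ i) * 2 ^ m + i' with hQ
    have hQlt : Q < 2 ^ m * 2 ^ i := by
      have h1 : j - 2 ^ i + 1 ≤ 2 ^ i := by rw [pow_succ] at hj2; omega
      have h2 : (j - 2 ^ i + 1) * 2 ^ m ≤ 2 ^ i * 2 ^ m := Nat.mul_le_mul_right _ h1
      rw [add_mul, one_mul] at h2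
      rw [mul_comm (2 ^ m)]
      omega
    set r : ℕ := b i * (l : ℕ) + (4 * Q + t') with hr
    have hlt : 4 * Q + t' < b i := by
      show _ < 4 * (2 ^ m * 2 ^ i)
      omega
    have hrd : r / b i = l := by
      rw [hr, Nat.mul_add_div (hb i), Nat.div_eq_of_lt hlt, add_zero]
    have hrm : r % b i = 4 * Q + t' := by
      rw [hr, Nat.mul_add_mod, Nat.mod_eq_of_lt hlt]
    have ht : t i r = t' := by
      show (r % b i) % 4 = t'
      rw [hrm]; omega
    have hq : q i r = Q := by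
      show (r % b i) / 4 = Q
      rw [hrm]; omega
    have hi1 : ii i r = i' := by
      show q i r % 2 ^ m = i'
      rw [hq, hQ, mul_comm, Nat.mul_add_mod, Nat.mod_eq_of_lt hi']
    have hj3 : jj i r = j := by
      show 2 ^ i + q i r / 2 ^ m = j
      rw [hq, hQ, mul_comm, Nat.mul_add_div (by positivity), Nat.div_eq_of_lt hi']
      omega
    have hrlt : r < dm i := by
      have h1 : (l : ℕ) + 1 ≤ 2 ^ m := by have := l.2; omega
      have h2 : r < b i * ((l : ℕ) + 1) := by rw [mul_add, mul_one]; omega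
      have h3 : b i * ((l : ℕ) + 1) ≤ b i * 2 ^ m := Nat.mul_le_mul_left _ h1
      have h4 : (2 : ℕ) ^ m ≤ 2 ^ i := Nat.pow_le_pow_right (by norm_num) hmi
      have h5 : b i * 2 ^ m ≤ 4 * (2 ^ i * 2 ^ i) * 2 ^ i := by
        show 4 * (2 ^ m * 2 ^ i) * 2 ^ m ≤ _
        gcongr
      have h6 : 4 * (2 ^ i * 2 ^ i) * 2 ^ i ≤ dm i := by
        unfold dm
        have : (8 : ℕ) ^ (i + 1) = 8 * (2 ^ i * 2 ^ i * 2 ^ i) := by
          rw [pow_succ, show (8 : ℕ) = 2 ^ 3 by norm_num, ← pow_mul]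
          ring
        rw [this]
        nlinarith [Nat.zero_le (2 ^ i * 2 ^ i * 2 ^ i)]
      omega
    have h7 := hz i hin r hrlt
    have hcond : m ≤ i ∧ r / b i < k := ⟨hmi, by rw [hrd]; exact l.2⟩
    simp only [f, hcond] at h7
    simp only [and_self, dite_true] at h7
    rw [E_ext_apply _ _ hv, ht, hi1, hj3] at h7
    have hl : (⟨r / b i, hcond.2⟩ : Fin k) = l := Fin.ext hrd
    rw [hl] at h7
    exact h7
  have k0 := key 0 (by norm_num)
  have k1 := key 1 (by norm_num)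
  have k2 := key 2 (by norm_num)
  have k3 := key 3 (by norm_num)
  simp only [E_ent] at k0 k1 k2 k3
  norm_num at k0 k1 k2 k3
  exact ⟨Complex.ext (by simpa using k0) (by simpa using k1),
    Complex.ext (by simpa using k2) (by simpa using k3)⟩

end Pool.Agent.H730R2.GN
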