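import Pool.Agent.H730R2.GN.Base
import Pool.Agent.H730R2.GN.Del

set_option autoImplicit false

namespace Pool.Agent.H730R2.GN

open Pool.Agent.Helper133.BT Pool.Agent.Helper133.BU
open scoped BoundedContinuousFunction

variable (o : OpData) (x : ℕ → Y)








theorem G4_continuous_del (n : ℕ) : Continuous (del o x n) := by
  have h : LipschitzWith 1 (del o x n) := by
    refine LipschitzWith.of_dist_le_mul fun a b => ?_
    have h1 : del o x n a - del o x n b = del o x n (a - b) := by
      have h2 : a - b = a + (-1 : ℂ) • b := by rw [neg_one_smul, sub_eq_add_neg]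
      have h3 : (-1 : ℂ) • del o x n b = -del o x n b := neg_one_smul ℂ (del o x n b)
      rw [h2, del_add, del_smul, h3]
      exact sub_eq_add_neg (del o x n a) (del o x n b)
    have h4 : dist (del o x n a) (del o x n b) = ‖del o x n a - del o x n b‖ :=
      dist_eq_norm (del o x n a) (del o x n b)
    have h5 : dist a b = ‖a - b‖ := dist_eq_norm a b
    rw [h4, h5, h1, NNReal.coe_one, one_mul]
    exact norm_del o x n (a - b)
  exact h.continuous

theorem sep : TopologicalSpace.IsSeparable (Un o x) := by
  have h0 : SecondCountableTopology C(Y, ℂ) := inferInstance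
  have h1 : Un o x ⊆ ⋃ n : ℕ, (fun F : Fin (2 ^ n) → Fin (2 ^ n) → C(Y, ℂ) =>
      ∑ i : Fin (2 ^ n), ∑ j : Fin (2 ^ n),
        cst (V o n i) * del o x n (F i j) * star (cst (V o n j))) '' Set.univ := by
    rintro a ⟨n, F, -, rfl⟩
    refine Set.mem_iUnion.mpr ⟨n, fun i j => F i j, trivial, ?_⟩
    unfold Ext
    rw [Finset.sum_range]
    refine Finset.sum_congr rfl fun i _ => ?_
    rw [Finset.sum_range]
  refine TopologicalSpace.IsSeparable.mono (TopologicalSpace.IsSeparable.iUnion fun n => ?_) h1
  refine TopologicalSpace.IsSeparable.image (TopologicalSpace.IsSeparable.of_separableSpace _) ?_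
  refine continuous_finsetSum _ fun i _ => continuous_finsetSum _ fun j _ => ?_
  exact (continuous_const.mul ((G4_continuous_del o x n).comp
    ((continuous_apply j).comp (continuous_apply i)))).mul continuous_const

end Pool.Agent.H730R2.GN
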