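import Pool.Agent.H730R2.GN.Base
import Pool.Agent.H730R2.GN.Avg
import Pool.Agent.H730R2.GN.Del
import Pool.Agent.H730R2.GN.EquiL
import Pool.Agent.H730R2.GN.ExVec
import Pool.Agent.H730R2.GN.ExtA
import Pool.Agent.H730R2.GN.ExtPhi
import Pool.Agent.H730R2.GN.NormC

set_option autoImplicit false

namespace Pool.Agent.H730R2.GN

open Pool.Agent.Helper133.BT Pool.Agent.Helper133.BU
open scoped BoundedContinuousFunction

variable (o : OpData) (x : ℕ → Y)












theorem G5_Ext_smul (n : ℕ) (r : ℂ) (F : ℕ → ℕ → C(Y, ℂ)) :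
    Ext o x n (fun i j => r • F i j) = r • Ext o x n F := by
  unfold Ext
  rw [Finset.smul_sum]
  refine Finset.sum_congr rfl fun i _ => ?_
  rw [Finset.smul_sum]
  refine Finset.sum_congr rfl fun j _ => ?_
  rw [del_smul, mul_smul_comm, smul_mul_assoc]

theorem G5_Un_smul (r : ℂ) (a : BB) (ha : a ∈ Un o x) : r • a ∈ Un o x := by
  obtain ⟨n, F, hF, rfl⟩ := ha
  refine ⟨n, fun i j => r • F i j, ?_, (G5_Ext_smul o x n r F).symm⟩
  intro i hi j hj k y
  have := hF i hi j hj k y
  simp only [ContinuousMap.smul_apply, smul_eq_mul, this]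
  ring

theorem G5_chi_star (k i : ℕ) : star (chi k i) = chi k i := by
  unfold chi
  split_ifs <;> simp

theorem G5_Un_star (a : BB) (ha : a ∈ Un o x) : star a ∈ Un o x := by
  obtain ⟨n, F, hF, rfl⟩ := ha
  refine ⟨n, fun i j => star (F j i), ?_, Ext_star o x n F⟩
  intro i hi j hj k y
  have := hF j hj i hi k y
  simp only [ContinuousMap.star_apply, this, star_mul', G5_chi_star]
  ring

theorem G5_cl_smul (r : ℂ) (a : BB) (ha : a ∈ closure (Un o x)) : r • a ∈ closure (Un o x) :=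
  map_mem_closure (continuous_const_smul r) ha (fun b hb => G5_Un_smul o x r b hb)

theorem G5_cont_star : Continuous (fun a : BB => star a) := by
  have h : LipschitzWith 1 (fun a : BB => star a) := by
    refine LipschitzWith.of_dist_le_mul fun a b => ?_
    have h1 := dist_eq_norm (E := BB) (star a) (star b)
    have h2 := dist_eq_norm (E := BB) a b
    have h3 : ‖star a - star b‖ = ‖a - b‖ := by
      have h4 := star_sub (R := BB) a b
      exact (congrArg norm h4.symm).trans (norm_star (a - b))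
    simp only [NNReal.coe_one, one_mul]
    exact (h1.trans (h3.trans h2.symm)).le
  exact h.continuous

theorem G5_alg1 (c p q : BB) : star c * p * c - star c * q * c = star c * (p - q) * c := by
  have h1 := mul_sub (α := BB) (star c) p q
  have h2 := sub_mul (α := BB) (star c * p) (star c * q) c
  exact h2.symm.trans (congrArg (· * c) h1.symm)

theorem G5_alg2 (c b : BB) :
    star c * c - star b * b = star c * (c - b) + star (c - b) * b := by
  have h1 := mul_sub (α := BB) (star c) c b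
  have h2 := star_sub (R := BB) c b
  have h3 := sub_mul (α := BB) (star c) (star b) b
  have h4 := sub_add_sub_cancel (G := BB) (star c * c) (star c * b) (star b * b)
  have h5 : star c * (c - b) + star (c - b) * b
      = (star c * c - star c * b) + (star c * b - star b * b) := by
    refine congrArg₂ (· + ·) h1 ?_
    exact (congrArg (· * b) h2).trans h3
  exact h4.symm.trans h5.symm

theorem G5_norm_smul (r : ℂ) (a : BB) : ‖r • a‖ = ‖r‖ * ‖a‖ :=
  @norm_smul ℂ BB _ _ _ (NormedSpace.toNormSMulClass) r a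

theorem G5_cl_star (a : BB) (ha : a ∈ closure (Un o x)) : star a ∈ closure (Un o x) :=
  map_mem_closure G5_cont_star ha (fun b hb => G5_Un_star o x b hb)

theorem G5_St_mono {n m : ℕ} (h : n ≤ m) (a : BB) (ha : a ∈ St o x n) : a ∈ St o x m := by
  induction m, h using Nat.le_induction with
  | base => exact ha
  | succ k _ ih =>
    obtain ⟨F, hF, rfl⟩ := ih
    exact ⟨phi x k F, Equi_phi x k F hF, Ext_phi o x k F⟩

theorem G5_norm_vec (N : ℕ) (ξ : ℕ → ℂ) :
    ‖(∑ i ∈ Finset.range N, ξ i • e i : H)‖ ^ 2 = ∑ i ∈ Finset.range N, ‖ξ i‖ ^ 2 := by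
  have h := lp.norm_sum_single (E := fun _ : ℕ => ℂ) (p := 2) (by norm_num) (fun i => ξ i)
    (Finset.range N)
  have h2 : (2 : ENNReal).toReal = 2 := by norm_num
  rw [h2] at h
  have h3 : (∑ i ∈ Finset.range N, ξ i • e i : H)
      = ∑ i ∈ Finset.range N, lp.single 2 i (ξ i) := by
    refine Finset.sum_congr rfl fun i _ => ?_
    unfold e
    rw [← lp.single_smul]
    simp
  rw [h3]
  have h4 : ∀ t : ℝ, t ^ (2 : ℝ) = t ^ 2 := fun t => by
    rw [← Real.rpow_natCast]; norm_num
  simpa only [h4] using h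

theorem G5_norm_one : ‖(1 : BB)‖ ≤ 1 := by
  rw [ContinuousMap.norm_le _ zero_le_one]
  intro y
  exact ContinuousLinearMap.norm_id_le

theorem simple_core (hx : Dn x) (I : Set BB) (hI : I ⊆ closure (Un o x))
    (hadd : ∀ a ∈ I, ∀ b ∈ I, a + b ∈ I)
    (hl : ∀ a ∈ I, ∀ b ∈ closure (Un o x), b * a ∈ I)
    (hr : ∀ a ∈ I, ∀ b ∈ closure (Un o x), a * b ∈ I)
    (hne : ∃ a ∈ I, a ≠ 0) : ∃ z ∈ I, ∃ r : ℝ, ‖z - (r : ℂ) • (1 : BB)‖ < r := by
  obtain ⟨a, haI, ha0⟩ := hne
  have hna : 0 < ‖a‖ := (norm_pos_iff (E := BB) (a := a)).mpr ha0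
  have hacl := hI haI
  -- zero
  have h0I : (0 : BB) ∈ I := by
    have := hl a haI ((0 : ℂ) • a) (G5_cl_smul o x 0 a hacl)
    have h2 : ((0 : ℂ) • a) * a = 0 := by
      have h3 := zero_smul (M₀ := ℂ) (A := BB) a
      exact (congrArg (· * a) h3).trans (zero_mul (M₀ := BB) a)
    exact h2 ▸ this
  -- c
  obtain ⟨c, hc⟩ : ∃ c : BB, c = ((‖a‖⁻¹ : ℝ) : ℂ) • a := ⟨_, rfl⟩
  have hcn : ‖c‖ = 1 := by
    rw [hc, G5_norm_smul, Complex.norm_real, Real.norm_eq_abs, abs_of_pos (inv_pos.mpr hna)]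
    exact inv_mul_cancel₀ hna.ne'
  have hccl : c ∈ closure (Un o x) := hc ▸ G5_cl_smul o x _ a hacl
  have hpI : star c * c ∈ I := by
    have h1 := hl a haI (((‖a‖⁻¹ : ℝ) : ℂ) • star c) (G5_cl_smul o x _ _ (G5_cl_star o x c hccl))
    have h2 : (((‖a‖⁻¹ : ℝ) : ℂ) • star c) * a = star c * c := by
      conv_rhs => rw [hc]
      rw [mul_smul_comm, smul_mul_assoc, hc]
    rwa [h2] at h1
  obtain ⟨y, N, ξ, hξ, hv⟩ := exists_vec c hcn (1 / 10) (by norm_num)
  obtain ⟨b, hbU, hb'⟩ : ∃ b ∈ Un o x, dist c b < 1 / 10 :=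
    (Metric.mem_closure_iff (α := BB)).mp hccl (1 / 10) (by norm_num)
  have hb : ‖c - b‖ < 1 / 10 := by
    have h1 := dist_eq_norm (E := BB) c b
    exact lt_of_eq_of_lt h1.symm hb'
  obtain ⟨n0, hbn⟩ := hbU
  obtain ⟨v, hvdef⟩ : ∃ v : H, v = ∑ i ∈ Finset.range N, ξ i • e i := ⟨_, rfl⟩
  rw [← hvdef] at hv
  have hvn : ‖v‖ ≤ 1 := by
    have h1 := G5_norm_vec N ξ
    rw [← hvdef] at h1
    rw [← h1] at hξ
    nlinarith [norm_nonneg v]
  obtain ⟨ξ', hξ'⟩ : ∃ ξ' : ℕ → ℂ, ξ' = fun i => if i < N then ξ i else 0 := ⟨_, rfl⟩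
  -- open set
  have hUo : IsOpen {y' : Y | (8 / 10 : ℝ) < ‖b y' v‖} := by
    have hcont : Continuous fun y' : Y => ‖b y' v‖ := by
      have h1 : Continuous fun y' : Y => b y' := b.continuous
      exact (h1.clm_apply continuous_const).norm
    exact isOpen_lt continuous_const hcont
  have hyU : (8 / 10 : ℝ) < ‖b y v‖ := by
    have h1 : ‖c y v‖ ≤ ‖b y v‖ + ‖(c - b) y v‖ := by
      have h2 : c y v = b y v + (c - b) y v := by
        simp [ContinuousMap.sub_apply]
      rw [h2]
      exact norm_add_le _ _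
    have h3 : ‖(c - b) y v‖ ≤ 1 / 10 := by
      calc ‖(c - b) y v‖ ≤ ‖(c - b) y‖ * ‖v‖ := ContinuousLinearMap.le_opNorm _ _
        _ ≤ ‖c - b‖ * 1 := by
            apply mul_le_mul ((c - b).norm_coe_le_norm y) hvn (norm_nonneg _) (norm_nonneg _)
        _ ≤ 1 / 10 := by linarith
    linarith
  obtain ⟨m, hm, hxm⟩ := hx _ hUo ⟨y, hyU⟩ (max n0 N)
  have hxm' : (8 / 10 : ℝ) < ‖b (x m) v‖ := hxm
  obtain ⟨B, hB, hbB⟩ := G5_St_mono o x (le_trans (le_max_left _ _) hm) b hbn
  have hN2 : N ≤ 2 ^ m := le_trans (le_trans (le_max_right _ _) hm) (Nat.lt_two_pow_self).le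
  have hsumv : (∑ i ∈ Finset.range (2 ^ m), ξ' i • e i : H) = v := by
    rw [hvdef]
    symm
    calc (∑ i ∈ Finset.range N, ξ i • e i : H) = ∑ i ∈ Finset.range N, ξ' i • e i := by
          refine Finset.sum_congr rfl fun i hi => ?_
          rw [hξ']
          simp [Finset.mem_range.mp hi]
      _ = ∑ i ∈ Finset.range (2 ^ m), ξ' i • e i := by
          refine Finset.sum_subset (Finset.range_subset_range.mpr hN2) fun i _ hi => ?_
          rw [hξ']
          simp [Finset.mem_range] at hi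
          simp [not_lt.mpr hi]
  have hsums : (∑ i ∈ Finset.range (2 ^ m), ‖ξ' i‖ ^ 2 : ℝ) ≤ 1 := by
    rw [← G5_norm_vec, hsumv]
    nlinarith [norm_nonneg v]
  obtain ⟨K, C, hC, hC1, hC2⟩ := average o x m ξ' B
  rw [hsumv, ← hbB] at hC2
  have hCn : ‖∑ a, star (C a) * C a‖ ≤ 1 := by
    rw [hC1, G5_norm_smul, Complex.norm_real, Real.norm_eq_abs,
      abs_of_nonneg (Finset.sum_nonneg fun i _ => by positivity)]
    calc _ ≤ (1 : ℝ) * 1 := by
          apply mul_le_mul hsums G5_norm_one (norm_nonneg (E := BB) _) zero_le_one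
      _ = 1 := by norm_num
  refine ⟨∑ a, star (C a) * (star c * c) * C a, ?_, ‖b (x m) v‖ ^ 2, ?_⟩
  · have hSt : ∀ a, C a ∈ closure (Un o x) := fun a => subset_closure ⟨m + 1, hC a⟩
    have : ∀ s : Finset (Fin K), ∑ a ∈ s, star (C a) * (star c * c) * C a ∈ I := by
      intro s
      classical
      induction s using Finset.induction_on with
      | empty => simpa using h0I
      | insert i s hi ih =>
        rw [Finset.sum_insert hi]
        exact hadd _ (hr _ (hl _ hpI _ (G5_cl_star o x _ (hSt i))) _ (hSt i)) _ ih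
    exact this _
  · rw [← hC2, ← Finset.sum_sub_distrib]
    have h1 : ∀ a, star (C a) * (star c * c) * C a - star (C a) * (star b * b) * C a
        = star (C a) * (star c * c - star b * b) * C a := by
      intro a
      exact G5_alg1 (C a) _ _
    rw [Finset.sum_congr rfl fun a _ => h1 a]
    have h2 := norm_sum_conj C (star c * c - star b * b) hCn
    have h3 : ‖star c * c - star b * b‖ ≤ 21 / 100 := by
      have h4 : star c * c - star b * b = star c * (c - b) + star (c - b) * b := G5_alg2 c b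
      have hbn : ‖b‖ ≤ 11 / 10 := by
        have : b = c - (c - b) := by abel
        calc ‖b‖ = ‖c - (c - b)‖ := by rw [← this]
          _ ≤ ‖c‖ + ‖c - b‖ := norm_sub_le (E := BB) _ _
          _ ≤ 11 / 10 := by linarith
      rw [h4]
      calc ‖star c * (c - b) + star (c - b) * b‖
          ≤ ‖star c * (c - b)‖ + ‖star (c - b) * b‖ := norm_add_le (E := BB) _ _
        _ ≤ ‖star c‖ * ‖c - b‖ + ‖star (c - b)‖ * ‖b‖ :=
            add_le_add (norm_mul_le (α := BB) _ _) (norm_mul_le (α := BB) _ _)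
        _ = 1 * ‖c - b‖ + ‖c - b‖ * ‖b‖ := by
            have e1 : ‖star c‖ = 1 := (norm_star (E := BB) c).trans hcn
            have e2 : ‖star (c - b)‖ = ‖c - b‖ := norm_star (E := BB) (c - b)
            rw [e1, e2]
        _ ≤ 21 / 100 := by nlinarith [norm_nonneg (c - b), norm_nonneg b]
    have h5 : (64 / 100 : ℝ) < ‖b (x m) v‖ ^ 2 := by nlinarith [norm_nonneg (b (x m) v)]
    linarith

end Pool.Agent.H730R2.GN
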