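import Pool.Agent.H730R2.GN.OpExt
import Pool.Agent.H730R2.GN.ExS
import Pool.Agent.H730R2.GN.ExD
import Pool.Agent.H730R2.GN.VV
import Pool.Agent.H730R2.GN.Del
import Pool.Agent.H730R2.GN.ExtA
import Pool.Agent.H730R2.GN.ExtPhi
import Pool.Agent.H730R2.GN.ExtE
import Pool.Agent.H730R2.GN.EquiL
import Pool.Agent.H730R2.GN.Obs
import Pool.Agent.H730R2.GN.ExH
import Pool.Agent.H730R2.GN.ExX
import Pool.Agent.H730R2.GN.NormC
import Pool.Agent.H730R2.GN.ExVec
import Pool.Agent.H730R2.GN.Avg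
import Pool.Agent.H730R2.GN.Sep
import Pool.Agent.H730R2.GN.SimpleCore
import Pool.Agent.H730R2.GN.Gen

set_option autoImplicit false

namespace Pool.Agent.H730R2.GN

open Pool.Agent.Helper133.BT Pool.Agent.Helper133.BU
open scoped BoundedContinuousFunction Topology
open Filter

variable (o : OpData) (x : ℕ → Y)

lemma St_succ (n : ℕ) : St o x n ⊆ St o x (n + 1) := by
  rintro _ ⟨F, hF, rfl⟩
  exact ⟨phi x n F, Equi_phi x n F hF, Ext_phi o x n F⟩

lemma St_mono {n m : ℕ} (h : n ≤ m) : St o x n ⊆ St o x m := by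
  induction m, h using Nat.le_induction with
  | base => exact subset_rfl
  | succ m _ ih => exact ih.trans (St_succ o x m)

lemma Un_common {a b : BB} (ha : a ∈ Un o x) (hb : b ∈ Un o x) :
    ∃ n, a ∈ St o x n ∧ b ∈ St o x n := by
  obtain ⟨n, hn⟩ := ha
  obtain ⟨m, hm⟩ := hb
  exact ⟨max n m, St_mono o x (le_max_left _ _) hn, St_mono o x (le_max_right _ _) hm⟩

lemma chi_star (k i : ℕ) : star (chi k i) = chi k i := by
  unfold chi
  split_ifs <;> simp

instance : Nonempty Y := ⟨⟨v0 dm, v0_mem dm⟩⟩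

instance : Nontrivial BH := by
  refine ⟨0, 1, ?_⟩
  intro h
  have h1 := congrArg (fun T : BH => T (e 0)) h
  simp only [zero_apply, one_apply_eq_self] at h1
  have h2 := congrArg (fun f : H => f 0) h1
  simp [e] at h2

instance : Nontrivial BB := by
  refine ⟨0, 1, ?_⟩
  intro h
  have h1 := congrArg (fun f : BB => f (Classical.arbitrary Y)) h
  simp at h1

/-- indicator sequence -/
noncomputable def ind (S : Set ℕ) : ℕ →ᵇ ℂ :=
  BoundedContinuousFunction.ofNormedAddCommGroup (S.indicator (fun _ => (1 : ℂ)))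
    continuous_of_discreteTopology 1 (fun q => by
      classical
      by_cases h : q ∈ S <;> simp [Set.indicator, h])

lemma ind_apply (S : Set ℕ) (q : ℕ) [Decidable (q ∈ S)] : ind S q = if q ∈ S then 1 else 0 := by
  show S.indicator (fun _ => (1 : ℂ)) q = _
  rw [Set.indicator_apply]

/-- the projection on the first coordinates -/
noncomputable def PP' (m : ℕ) : BH := o.Dg (ind {q | q < 2 ^ m})
noncomputable def QQ' (m : ℕ) : BH := o.Dg (ind {q | 2 ^ m ≤ q})

lemma ind_norm (S : Set ℕ) : ‖ind S‖ ≤ 1 :=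
  BoundedContinuousFunction.norm_ofNormedAddCommGroup_le _ zero_le_one _

lemma P_norm (m : ℕ) : ‖PP' o m‖ ≤ 1 := (Dg_norm o _).trans (ind_norm _)
lemma Q_norm (m : ℕ) : ‖QQ' o m‖ ≤ 1 := (Dg_norm o _).trans (ind_norm _)

lemma PQ (m : ℕ) : PP' o m + QQ' o m = 1 := by
  rw [PP', QQ', ← map_add, ← map_one o.Dg]
  congr 1
  ext q
  rw [BoundedContinuousFunction.add_apply, ind_apply, ind_apply]
  by_cases h : q < 2 ^ m
  · simp [h, not_le.mpr h]
  · simp [h, not_lt.mp h]

lemma P_star (m : ℕ) : star (PP' o m) = PP' o m := by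
  rw [PP', ← map_star]
  congr 1
  ext q
  rw [BoundedContinuousFunction.star_apply, ind_apply]
  split_ifs <;> simp

lemma Q_star (m : ℕ) : star (QQ' o m) = QQ' o m := by
  rw [QQ', ← map_star]
  congr 1
  ext q
  rw [BoundedContinuousFunction.star_apply, ind_apply]
  split_ifs <;> simp

lemma P_e (m q : ℕ) : PP' o m (e q) = if q < 2 ^ m then e q else 0 := by
  rw [PP', o.De, ind_apply]
  by_cases h : q < 2 ^ m <;> simp [h]

lemma Q_e (m q : ℕ) : QQ' o m (e q) = if 2 ^ m ≤ q then e q else 0 := by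
  rw [QQ', o.De, ind_apply]
  by_cases h : 2 ^ m ≤ q <;> simp [h]

lemma QbP (m n : ℕ) (hmn : m ≤ n) (F : ℕ → ℕ → C(Y, ℂ)) (y : Y)
    (h : ∀ i < 2 ^ m, ∀ j < 2 ^ n, 2 ^ m ≤ j → F j i y = 0) :
    QQ' o m * Ext o x n F y * PP' o m = 0 := by
  refine op_ext _ _ fun q => ?_
  simp only [mul_apply_eq_comp, zero_apply]
  rw [P_e]
  by_cases hq : q < 2 ^ m
  · rw [if_pos hq, Ext_apply_e o x n F y q (lt_of_lt_of_le hq (Nat.pow_le_pow_right (by norm_num) hmn)),
      map_sum]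
    refine Finset.sum_eq_zero fun j hj => ?_
    rw [map_smul, Q_e]
    by_cases hj2 : 2 ^ m ≤ j
    · rw [h q hq j (Finset.mem_range.mp hj) hj2, zero_smul]
    · rw [if_neg hj2, smul_zero]
  · rw [if_neg hq, map_zero, map_zero]

lemma PbQ (m n : ℕ) (hmn : m ≤ n) (F : ℕ → ℕ → C(Y, ℂ)) (y : Y)
    (h : ∀ i < 2 ^ m, ∀ j < 2 ^ n, 2 ^ m ≤ j → F i j y = 0) :
    PP' o m * Ext o x n F y * QQ' o m = 0 := by
  have h1 := QbP o x m n hmn (fun i j => star (F j i)) y (fun i hi j hj hij => by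
    simp [h i hi j hj hij])
  rw [← Ext_star] at h1
  have h2 := congrArg star h1
  simp only [ContinuousMap.star_apply, star_mul, star_star, star_zero, P_star, Q_star] at h2
  rw [mul_assoc]; exact h2


lemma e_ne (q : ℕ) : e q ≠ 0 := by
  intro h
  have h2 := congrArg (fun f : H => f q) h
  simp [e] at h2

lemma P_ne (m : ℕ) : PP' o m ≠ 0 := by
  intro h
  have h1 := congrArg (fun T : BH => T (e 0)) h
  simp only [P_e, zero_apply] at h1
  rw [if_pos (by positivity)] at h1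
  exact e_ne 0 h1

lemma PQ0 (m : ℕ) : PP' o m * QQ' o m = 0 := by
  refine op_ext _ _ fun q => ?_
  simp only [mul_apply_eq_comp, zero_apply]
  rw [Q_e]
  by_cases hq : 2 ^ m ≤ q
  · rw [if_pos hq, P_e, if_neg (not_lt.mpr hq)]
  · rw [if_neg hq, map_zero]

/-- the matrix unit `(2^m, 2^m)` -/
noncomputable def EU (m : ℕ) : ℕ → ℕ → C(Y, ℂ) := fun i j => if i = 2 ^ m ∧ j = 2 ^ m then 1 else 0

lemma chi_sq (k i : ℕ) : chi k i * chi k i = 1 := by
  unfold chi
  split_ifs <;> simp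

lemma EU_equi (m : ℕ) : Equi (m + 1) (EU m) := by
  intro i _ j _ k y
  unfold EU
  by_cases h : i = 2 ^ m ∧ j = 2 ^ m
  · rw [if_pos h, h.1, h.2, chi_sq]; simp
  · rw [if_neg h]; simp

lemma EU_P (m : ℕ) (y : Y) : Ext o x (m + 1) (EU m) y * PP' o m = 0 := by
  refine op_ext _ _ fun q => ?_
  simp only [mul_apply_eq_comp, zero_apply]
  rw [P_e]
  by_cases hq : q < 2 ^ m
  · rw [if_pos hq, Ext_apply_e o x (m + 1) (EU m) y q (lt_of_lt_of_le hq (Nat.pow_le_pow_right (by norm_num) (Nat.le_succ m)))]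
    refine Finset.sum_eq_zero fun j _ => ?_
    have : EU m j q = 0 := by
      unfold EU
      rw [if_neg]
      rintro ⟨-, h⟩
      omega
    rw [this]; simp
  · rw [if_neg hq, map_zero]

lemma EU_ne (m : ℕ) : Ext o x (m + 1) (EU m) ≠ 0 := by
  intro h
  have hm : 2 ^ m < 2 ^ (m + 1) := Nat.pow_lt_pow_right (by norm_num) (Nat.lt_succ_self m)
  have h1 := Ext_apply_e o x (m + 1) (EU m) (Classical.arbitrary Y) (2 ^ m) hm
  rw [h, Finset.sum_eq_single_of_mem (2 ^ m) (Finset.mem_range.mpr hm)] at h1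
  · simp only [EU, ContinuousMap.zero_apply, zero_apply] at h1
    simp only [and_self, if_true, ContinuousMap.one_apply, one_smul] at h1
    exact e_ne _ h1.symm
  · intro j _ hj
    simp [EU, hj]

lemma bound3 {a b c : BH} (ha : ‖a‖ ≤ 1) (hc : ‖c‖ ≤ 1) : ‖a * b * c‖ ≤ ‖b‖ := by
  calc ‖a * b * c‖ ≤ ‖a * b‖ * ‖c‖ := norm_mul_le _ _
    _ ≤ (‖a‖ * ‖b‖) * ‖c‖ := mul_le_mul_of_nonneg_right (norm_mul_le _ _) (norm_nonneg _)
    _ ≤ (1 * ‖b‖) * 1 := by gcongr
    _ = ‖b‖ := by ring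

lemma close (k : ℕ) (s : Fin k → BB) (hs : ∀ l, s l ∈ closure (Un o x)) (ε : ℝ) (hε : 0 < ε) :
    ∃ y : Y, ∀ l, ‖QQ' o k * s l y * PP' o k‖ ≤ ε ∧ ‖PP' o k * s l y * QQ' o k‖ ≤ ε := by
  have h1 : ∀ l, ∃ b ∈ Un o x, dist (s l) b < ε := fun l => Metric.mem_closure_iff.mp (hs l) ε hε
  choose b hb hd using h1
  choose n hn using hb
  let M : ℕ := k + ∑ l, n l
  have hnM : ∀ l, n l ≤ M := fun l =>
    (Finset.single_le_sum (f := n) (fun _ _ => Nat.zero_le _) (Finset.mem_univ l)).trans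
      (Nat.le_add_left _ _)
  have hbM : ∀ l, b l ∈ St o x M := fun l => St_mono o x (hnM l) (hn l)
  choose F hF hbF using hbM
  obtain ⟨y, hy⟩ := obstruct k M k (Nat.le_add_right _ _) Nat.lt_two_pow_self.le F hF
  refine ⟨y, fun l => ?_⟩
  have hk : k ≤ M := Nat.le_add_right _ _
  have e1 := QbP o x k M hk (F l) y (fun i hi j hj hij => (hy l i hi j hj hij).2)
  have e2 := PbQ o x k M hk (F l) y (fun i hi j hj hij => (hy l i hi j hj hij).1)
  rw [← hbF l] at e1 e2
  have hdl : ‖s l y - b l y‖ ≤ ε := by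
    rw [← dist_eq_norm]
    exact (ContinuousMap.dist_apply_le_dist y).trans (hd l).le
  constructor
  · have : QQ' o k * s l y * PP' o k = QQ' o k * (s l y - b l y) * PP' o k := by
      rw [mul_sub, sub_mul, e1, sub_zero]
    rw [this]
    exact (bound3 (Q_norm o k) (P_norm o k)).trans hdl
  · have : PP' o k * s l y * QQ' o k = PP' o k * (s l y - b l y) * QQ' o k := by
      rw [mul_sub, sub_mul, e2, sub_zero]
    rw [this]
    exact (bound3 (P_norm o k) (Q_norm o k)).trans hdl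

/-- evaluation -/
noncomputable def evl (y : Y) : BB →⋆ₐ[ℂ] BH where
  toFun a := a y
  map_one' := rfl
  map_mul' _ _ := rfl
  map_zero' := rfl
  map_add' _ _ := rfl
  commutes' _ := rfl
  map_star' _ := rfl

lemma evl_apply (y : Y) (a : BB) : evl y a = a y := rfl

theorem nonempty_op : Nonempty OpData := by
  obtain ⟨s0, s1, h00, h11, h01, hs, e0, e1⟩ := exists_s
  obtain ⟨Dg, hD⟩ := exists_D
  refine ⟨⟨s0, s1, Dg, h00, h11, h01, hs, e0, e1, hD, ?_, ?_⟩⟩
  · intro c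
    refine op_ext _ _ fun q => ?_
    simp only [mul_apply_eq_comp, hD, e0, map_smul, pre_apply]
  · intro c
    refine op_ext _ _ fun q => ?_
    simp only [mul_apply_eq_comp, hD, e1, map_smul, pre_apply]

open Topology in
theorem final : ∃ (A : Type) (_ : CStarAlgebra A), Nontrivial A ∧
      TopologicalSpace.SeparableSpace A ∧
      (∀ I : TwoSidedIdeal A, I = ⊥ ∨ I = ⊤) ∧
      ∀ S : Set A, S.Finite → (StarAlgebra.adjoin ℂ S).topologicalClosure ≠ ⊤ := by
  obtain ⟨o⟩ := nonempty_op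
  obtain ⟨x, hx⟩ := exists_x
  refine assembleG (B := BB) (C := BH) (Un o x) ?_ ?_ ?_ ?_ (sep o x) (simple_core o x hx) ?_
  · intro a ha b hb
    obtain ⟨n, ⟨F, hF, rfl⟩, ⟨G, hG, rfl⟩⟩ := Un_common o x ha hb
    exact ⟨n, mm n F G, Equi_mm n F G hF hG, Ext_mul o x n F G⟩
  · intro a ha b hb
    obtain ⟨n, ⟨F, hF, rfl⟩, ⟨G, hG, rfl⟩⟩ := Un_common o x ha hb
    refine ⟨n, _, ?_, Ext_add o x n F G⟩
    intro i hi j hj k y
    simp only [ContinuousMap.add_apply]
    rw [hF i hi j hj k y, hG i hi j hj k y]; ring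
  · rintro a ⟨n, F, hF, rfl⟩
    refine ⟨n, _, ?_, Ext_star o x n F⟩
    intro i hi j hj k y
    simp only [ContinuousMap.star_apply]
    rw [hF j hj i hi k y]
    simp only [star_mul', chi_star]
    ring
  · intro c
    refine ⟨0, fun i j => if i = j then ContinuousMap.const Y c else 0, ?_, ?_⟩
    · intro i hi j hj k y
      have hi0 : i = 0 := by simpa using hi
      have hj0 : j = 0 := by simpa using hj
      subst hi0; subst hj0
      simp [chi]
    · exact (Ext_const o x 0 c).symm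
  · intro k s hs
    have h : ∀ N : ℕ, ∃ y : Y, ∀ l, ‖QQ' o k * s l y * PP' o k‖ ≤ 1 / ((N : ℝ) + 1) ∧
        ‖PP' o k * s l y * QQ' o k‖ ≤ 1 / ((N : ℝ) + 1) :=
      fun N => close o x k s hs _ (by positivity)
    choose y hy using h
    refine ⟨PP' o k, QQ' o k, fun N => evl (y N), PQ o k, P_star o k, Q_star o k, P_norm o k,
      Q_norm o k, P_ne o k, PQ0 o k, ?_, Ext o x (k + 1) (EU k), ⟨k + 1, EU k, EU_equi k, rfl⟩,
      EU_ne o x k, fun N => ?_⟩
    · intro l
      exact ⟨sm_of_le (fun N => (hy N l).1) tendsto_one_div_add_atTop_nhds_zero_nat,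
        sm_of_le (fun N => (hy N l).2) tendsto_one_div_add_atTop_nhds_zero_nat⟩
    · exact EU_P o x k (y N)

end Pool.Agent.H730R2.GN
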