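import Pool.Agent.H730R2.GN.Base

set_option autoImplicit false

namespace Pool.Agent.H730R2.GN

open Pool.Agent.Helper133.BT Pool.Agent.Helper133.BU
open scoped BoundedContinuousFunction

variable (o : OpData) (x : ℕ → Y)

theorem op_ext (S T : BH) (h : ∀ q, S (e q) = T (e q)) : S = T := by
  ext1 f
  have h1 := lp.hasSum_single (by simp) f
  have h2 := h1.mapL S
  have h3 := h1.mapL T
  have h4 : (fun i => S (lp.single 2 i (f i))) = fun i => T (lp.single 2 i (f i)) := by
    funext i
    have e1 : lp.single 2 i (f i) = (f i) • e i := by
      unfold e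
      rw [← lp.single_smul]
      simp
    rw [e1, map_smul, map_smul, h i]
  rw [h4] at h2
  exact h2.unique h3

end Pool.Agent.H730R2.GN
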